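import Pool.Agent.Q312.Mak.LC

/-!
Closure properties of the set of acceptable formulae (given by labelled trees).
-/

namespace Pool.Agent.Q312.Mak

lemma ac_imp {φ ψ : Form}
    (h : LC 1 {(φ, ({(0, false)} : Label)), (.neg ψ, ({(0, true)} : Label))}) :
    Ac (.imp φ ψ) := by
  refine .counter 0 0 _ φ ψ ∅ le_rfl (Set.mem_singleton _) (h.weaken le_rfl ?_)
  rintro x (rfl | rfl)
  · left; simp
  · right; left; simp

lemma le_refl' (φ : Form) : Ac (.imp φ φ) :=
  ac_imp (.crash _ _ φ {(0, false)} {(0, true)} (by simp) (by simp) (by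
      intro k b h; cases b <;> simp at h ⊢ <;> (first | done | tauto)))

lemma le_trans' {φ ψ χ : Form} (h1 : Ac (.imp φ ψ)) (h2 : Ac (.imp ψ χ)) : Ac (.imp φ χ) := by
  apply ac_imp
  refine .recursive _ _ φ ψ {(0, false)} (by simp) h1 ?_
  refine .recursive _ _ ψ χ {(0, false)} (by simp) h2 ?_
  exact .crash _ _ χ {(0, false)} {(0, true)} (by simp) (by simp) (by
      intro k b h; cases b <;> simp at h ⊢ <;> (first | done | tauto))

lemma contra' {φ ψ : Form} (h : Ac (.imp φ ψ)) : Ac (.imp (.neg ψ) (.neg φ)) := by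
  apply ac_imp
  refine .dneg _ _ φ {(0, true)} (by simp) ?_
  refine .recursive _ _ φ ψ {(0, true)} (by simp) h ?_
  exact .crash _ _ ψ {(0, true)} {(0, false)} (by simp) (by simp) (by
      intro k b h; cases b <;> simp at h ⊢ <;> (first | done | tauto))

lemma dn1 (φ : Form) : Ac (.imp φ (.neg (.neg φ))) := by
  apply ac_imp
  refine .dneg _ _ (.neg φ) {(0, true)} (by simp) ?_
  exact .crash _ _ φ {(0, false)} {(0, true)} (by simp) (by simp) (by
      intro k b h; cases b <;> simp at h ⊢ <;> (first | done | tauto))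

lemma dn2 (φ : Form) : Ac (.imp (.neg (.neg φ)) φ) := by
  apply ac_imp
  refine .dneg _ _ φ {(0, false)} (by simp) ?_
  exact .crash _ _ φ {(0, false)} {(0, true)} (by simp) (by simp) (by
      intro k b h; cases b <;> simp at h ⊢ <;> (first | done | tauto))

lemma det {φ ψ : Form} (h1 : Ac φ) (h2 : Ac (.imp φ ψ)) : Ac ψ := by
  refine .recursive _ _ (.neg ψ) (.neg φ) ∅ (by simp) (contra' h2) ?_
  exact h1.weaken le_rfl (by simp)

lemma conj {φ ψ : Form} (h1 : Ac φ) (h2 : Ac ψ) : Ac (.and φ ψ) := by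
  refine .nand _ _ φ ψ ∅ (by simp) ?_ ?_
  · exact h1.weaken le_rfl (by simp)
  · exact h2.weaken le_rfl (by simp)

lemma and_le_left (φ ψ : Form) : Ac (.imp (.and φ ψ) φ) := by
  apply ac_imp
  refine .and _ _ φ ψ {(0, false)} (by simp) ?_
  exact .crash _ _ φ {(0, false)} {(0, true)} (by simp) (by simp) (by
      intro k b h; cases b <;> simp at h ⊢ <;> (first | done | tauto))

lemma and_le_right (φ ψ : Form) : Ac (.imp (.and φ ψ) ψ) := by
  apply ac_imp
  refine .and _ _ φ ψ {(0, false)} (by simp) ?_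
  exact .crash _ _ ψ {(0, false)} {(0, true)} (by simp) (by simp) (by
      intro k b h; cases b <;> simp at h ⊢ <;> (first | done | tauto))

lemma le_and {φ ψ χ : Form} (h1 : Ac (.imp χ φ)) (h2 : Ac (.imp χ ψ)) :
    Ac (.imp χ (.and φ ψ)) := by
  apply ac_imp
  refine .nand _ _ φ ψ {(0, true)} (by simp) ?_ ?_
  · refine .recursive _ _ χ φ {(0, false)} (by simp) h1 ?_
    exact .crash _ _ φ {(0, false)} {(0, true)} (by simp) (by simp) (by
      intro k b h; cases b <;> simp at h ⊢ <;> (first | done | tauto))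
  · refine .recursive _ _ χ ψ {(0, false)} (by simp) h2 ?_
    exact .crash _ _ ψ {(0, false)} {(0, true)} (by simp) (by simp) (by
      intro k b h; cases b <;> simp at h ⊢ <;> (first | done | tauto))

lemma le_or_left (φ ψ : Form) : Ac (.imp φ (.or φ ψ)) := by
  apply ac_imp
  refine .nor _ _ φ ψ {(0, true)} (by simp) ?_
  exact .crash _ _ φ {(0, false)} {(0, true)} (by simp) (by simp) (by
      intro k b h; cases b <;> simp at h ⊢ <;> (first | done | tauto))

lemma le_or_right (φ ψ : Form) : Ac (.imp ψ (.or φ ψ)) := by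
  apply ac_imp
  refine .nor _ _ φ ψ {(0, true)} (by simp) ?_
  exact .crash _ _ ψ {(0, false)} {(0, true)} (by simp) (by simp) (by
      intro k b h; cases b <;> simp at h ⊢ <;> (first | done | tauto))

lemma or_le {φ ψ χ : Form} (h1 : Ac (.imp φ χ)) (h2 : Ac (.imp ψ χ)) :
    Ac (.imp (.or φ ψ) χ) := by
  apply ac_imp
  refine .or _ _ φ ψ {(0, false)} (by simp) ?_ ?_
  · refine .recursive _ _ φ χ {(0, false)} (by simp) h1 ?_
    exact .crash _ _ χ {(0, false)} {(0, true)} (by simp) (by simp) (by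
      intro k b h; cases b <;> simp at h ⊢ <;> (first | done | tauto))
  · refine .recursive _ _ ψ χ {(0, false)} (by simp) h2 ?_
    exact .crash _ _ χ {(0, false)} {(0, true)} (by simp) (by simp) (by
      intro k b h; cases b <;> simp at h ⊢ <;> (first | done | tauto))

lemma neg_and_le (φ ψ : Form) : Ac (.imp (.neg (.and φ ψ)) (.or (.neg φ) (.neg ψ))) := by
  apply ac_imp
  refine .nor _ _ (.neg φ) (.neg ψ) {(0, true)} (by simp) ?_
  refine .nand _ _ φ ψ {(0, false)} (by simp) ?_ ?_
  · exact .crash _ _ (.neg φ) {(0, false)} {(0, true)} (by simp) (by simp) (by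
      intro k b h; cases b <;> simp at h ⊢ <;> (first | done | tauto))
  · exact .crash _ _ (.neg ψ) {(0, false)} {(0, true)} (by simp) (by simp) (by
      intro k b h; cases b <;> simp at h ⊢ <;> (first | done | tauto))

/-- fusion -/
abbrev fus (φ ψ : Form) : Form := .neg (.imp φ (.neg ψ))

lemma res1 {φ ψ χ : Form} (h : Ac (.imp (fus φ ψ) χ)) : Ac (.imp φ (.imp ψ χ)) := by
  apply ac_imp
  refine .counter _ 1 _ ψ χ {(0, true)} le_rfl (by simp) ?_
  refine .recursive _ _ (.neg χ) (.neg (fus φ ψ)) {(1, true), (0, true)} (by simp) (contra' h) ?_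
  refine .dneg _ _ (.imp φ (.neg ψ)) {(1, true), (0, true)} (by simp) ?_
  refine .mp _ _ φ (.neg ψ) {(0, false)} {(1, true), (0, true)} (by simp) (by simp) ?_
  exact .crash _ _ ψ {(1, false), (0, true)} ({(0, false)} ∪ {(1, true), (0, true)})
    (by simp) (by simp) (by
      intro k b h; cases b <;> simp at h ⊢ <;> (first | done | tauto))

lemma res2 {φ ψ χ : Form} (h : Ac (.imp φ (.imp ψ χ))) : Ac (.imp (fus φ ψ) χ) := by
  apply ac_imp
  refine .counter _ 1 _ φ (.neg ψ) {(0, false)} le_rfl (by simp) ?_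
  refine .dneg _ _ ψ {(1, true), (0, false)} (by simp) ?_
  refine .recursive _ _ φ (.imp ψ χ) {(1, false), (0, false)} (by simp) h ?_
  refine .mp _ _ ψ χ {(1, true), (0, false)} {(1, false), (0, false)} (by simp) (by simp) ?_
  exact .crash _ _ χ ({(1, true), (0, false)} ∪ {(1, false), (0, false)}) {(0, true)}
    (by simp) (by simp) (by
      intro k b h; cases b <;> simp at h ⊢ <;> (first | done | tauto))

lemma fus_comm (φ ψ : Form) : Ac (.imp (fus φ ψ) (fus ψ φ)) := by
  apply ac_imp
  refine .dneg _ _ (.imp ψ (.neg φ)) {(0, true)} (by simp) ?_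
  refine .counter _ 1 _ φ (.neg ψ) {(0, false)} le_rfl (by simp) ?_
  refine .dneg _ _ ψ {(1, true), (0, false)} (by simp) ?_
  refine .mp _ _ ψ (.neg φ) {(1, true), (0, false)} {(0, true)} (by simp) (by simp) ?_
  exact .crash _ _ φ {(1, false), (0, false)} ({(1, true), (0, false)} ∪ {(0, true)})
    (by simp) (by simp) (by
      intro k b h; cases b <;> simp at h ⊢ <;> (first | done | tauto))

lemma sq (φ : Form) : Ac (.imp φ (fus φ φ)) := by
  apply ac_imp
  refine .dneg _ _ (.imp φ (.neg φ)) {(0, true)} (by simp) ?_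
  refine .mp _ _ φ (.neg φ) {(0, false)} {(0, true)} (by simp) (by simp) ?_
  exact .crash _ _ φ {(0, false)} ({(0, false)} ∪ {(0, true)}) (by simp) (by simp) (by
      intro k b h; cases b <;> simp at h ⊢ <;> (first | done | tauto))

lemma fus_mono {φ φ' ψ ψ' : Form} (h1 : Ac (.imp φ φ')) (h2 : Ac (.imp ψ ψ')) :
    Ac (.imp (fus φ ψ) (fus φ' ψ')) := by
  apply ac_imp
  refine .dneg _ _ (.imp φ' (.neg ψ')) {(0, true)} (by simp) ?_
  refine .counter _ 1 _ φ (.neg ψ) {(0, false)} le_rfl (by simp) ?_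
  refine .dneg _ _ ψ {(1, true), (0, false)} (by simp) ?_
  refine .recursive _ _ φ φ' {(1, false), (0, false)} (by simp) h1 ?_
  refine .recursive _ _ ψ ψ' {(1, true), (0, false)} (by simp) h2 ?_
  refine .mp _ _ φ' (.neg ψ') {(1, false), (0, false)} {(0, true)} (by simp) (by simp) ?_
  exact .crash _ _ ψ' {(1, true), (0, false)} ({(1, false), (0, false)} ∪ {(0, true)})
    (by simp) (by simp) (by
      intro k b h; cases b <;> simp at h ⊢ <;> (first | done | tauto))

lemma fus_assoc (φ ψ χ : Form) : Ac (.imp (fus (fus φ ψ) χ) (fus φ (fus ψ χ))) := by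
  apply ac_imp
  refine .dneg _ _ (.imp φ (.neg (fus ψ χ))) {(0, true)} (by simp) ?_
  refine .counter _ 1 _ (fus φ ψ) (.neg χ) {(0, false)} le_rfl (by simp) ?_
  refine .dneg _ _ χ {(1, true), (0, false)} (by simp) ?_
  refine .counter _ 2 _ φ (.neg ψ) {(1, false), (0, false)} le_rfl (by simp) ?_
  refine .dneg _ _ ψ {(2, true), (1, false), (0, false)} (by simp) ?_
  refine .mp _ _ φ (.neg (fus ψ χ)) {(2, false), (1, false), (0, false)} {(0, true)}
    (by simp) (by simp) ?_
  refine .dneg _ _ (.imp ψ (.neg χ)) ({(2, false), (1, false), (0, false)} ∪ {(0, true)})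
    (by simp) ?_
  refine .mp _ _ ψ (.neg χ) {(2, true), (1, false), (0, false)}
    ({(2, false), (1, false), (0, false)} ∪ {(0, true)}) (by simp) (by simp) ?_
  exact .crash _ _ χ {(1, true), (0, false)} ({(2, true), (1, false), (0, false)} ∪
    ({(2, false), (1, false), (0, false)} ∪ {(0, true)})) (by simp) (by simp) (by
      intro k b h; cases b <;> simp at h ⊢ <;> (first | done | tauto))

lemma imp_mono {φ φ' ψ ψ' : Form} (h1 : Ac (.imp φ' φ)) (h2 : Ac (.imp ψ ψ')) :
    Ac (.imp (.imp φ ψ) (.imp φ' ψ')) := by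
  apply ac_imp
  refine .counter _ 1 _ φ' ψ' {(0, true)} le_rfl (by simp) ?_
  refine .recursive _ _ φ' φ {(1, false), (0, true)} (by simp) h1 ?_
  refine .mp _ _ φ ψ {(1, false), (0, true)} {(0, false)} (by simp) (by simp) ?_
  refine .recursive _ _ ψ ψ' ({(1, false), (0, true)} ∪ {(0, false)}) (by simp) h2 ?_
  exact .crash _ _ ψ' ({(1, false), (0, true)} ∪ {(0, false)}) {(1, true), (0, true)}
    (by simp) (by simp) (by
      intro k b h; cases b <;> simp at h ⊢ <;> (first | done | tauto))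

lemma imp_contra (φ ψ : Form) : Ac (.imp (.imp φ ψ) (.imp (.neg ψ) (.neg φ))) := by
  apply ac_imp
  refine .counter _ 1 _ (.neg ψ) (.neg φ) {(0, true)} le_rfl (by simp) ?_
  refine .dneg _ _ φ {(1, true), (0, true)} (by simp) ?_
  refine .mp _ _ φ ψ {(1, true), (0, true)} {(0, false)} (by simp) (by simp) ?_
  exact .crash _ _ ψ ({(1, true), (0, true)} ∪ {(0, false)}) {(1, false), (0, true)}
    (by simp) (by simp) (by
      intro k b h; cases b <;> simp at h ⊢ <;> (first | done | tauto))

lemma id_and (φ ψ : Form) :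
    Ac (.imp (.and (.imp φ φ) (.imp ψ ψ)) (.imp (.and φ ψ) (.and φ ψ))) := by
  apply ac_imp
  refine .and _ _ (.imp φ φ) (.imp ψ ψ) {(0, false)} (by simp) ?_
  refine .counter _ 1 _ (.and φ ψ) (.and φ ψ) {(0, true)} le_rfl (by simp) ?_
  refine .and _ _ φ ψ {(1, false), (0, true)} (by simp) ?_
  refine .nand _ _ φ ψ {(1, true), (0, true)} (by simp) ?_ ?_
  · refine .mp _ _ φ φ {(1, false), (0, true)} {(0, false)} (by simp) (by simp) ?_
    exact .crash _ _ φ ({(1, false), (0, true)} ∪ {(0, false)}) {(1, true), (0, true)}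
      (by simp) (by simp) (by
      intro k b h; cases b <;> simp at h ⊢ <;> (first | done | tauto))
  · refine .mp _ _ ψ ψ {(1, false), (0, true)} {(0, false)} (by simp) (by simp) ?_
    exact .crash _ _ ψ ({(1, false), (0, true)} ∪ {(0, false)}) {(1, true), (0, true)}
      (by simp) (by simp) (by
      intro k b h; cases b <;> simp at h ⊢ <;> (first | done | tauto))

lemma id_or (φ ψ : Form) :
    Ac (.imp (.and (.imp φ φ) (.imp ψ ψ)) (.imp (.or φ ψ) (.or φ ψ))) := by
  apply ac_imp
  refine .and _ _ (.imp φ φ) (.imp ψ ψ) {(0, false)} (by simp) ?_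
  refine .counter _ 1 _ (.or φ ψ) (.or φ ψ) {(0, true)} le_rfl (by simp) ?_
  refine .nor _ _ φ ψ {(1, true), (0, true)} (by simp) ?_
  refine .or _ _ φ ψ {(1, false), (0, true)} (by simp) ?_ ?_
  · refine .mp _ _ φ φ {(1, false), (0, true)} {(0, false)} (by simp) (by simp) ?_
    exact .crash _ _ φ ({(1, false), (0, true)} ∪ {(0, false)}) {(1, true), (0, true)}
      (by simp) (by simp) (by
      intro k b h; cases b <;> simp at h ⊢ <;> (first | done | tauto))
  · refine .mp _ _ ψ ψ {(1, false), (0, true)} {(0, false)} (by simp) (by simp) ?_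
    exact .crash _ _ ψ ({(1, false), (0, true)} ∪ {(0, false)}) {(1, true), (0, true)}
      (by simp) (by simp) (by
      intro k b h; cases b <;> simp at h ⊢ <;> (first | done | tauto))

lemma id_imp (φ ψ : Form) :
    Ac (.imp (.imp φ φ) (.imp (.imp φ ψ) (.imp φ ψ))) := by
  apply ac_imp
  refine .counter _ 1 _ (.imp φ ψ) (.imp φ ψ) {(0, true)} le_rfl (by simp) ?_
  refine .counter _ 2 _ φ ψ {(1, true), (0, true)} le_rfl (by simp) ?_
  refine .mp _ _ φ φ {(2, false), (1, true), (0, true)} {(0, false)} (by simp) (by simp) ?_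
  refine .mp _ _ φ ψ ({(2, false), (1, true), (0, true)} ∪ {(0, false)}) {(1, false), (0, true)}
    (by simp) (by simp) ?_
  exact .crash _ _ ψ (({(2, false), (1, true), (0, true)} ∪ {(0, false)}) ∪
    {(1, false), (0, true)}) {(2, true), (1, true), (0, true)} (by simp) (by simp) (by
      intro k b h; cases b <;> simp at h ⊢ <;> (first | done | tauto))

/-- if `φ ∘ ψ ≤ χ`, then `φ ∘ ¬χ ≤ ¬ψ` -/
lemma fus_contra {φ ψ χ : Form} (h : Ac (.imp (fus φ ψ) χ)) :
    Ac (.imp (fus φ (.neg χ)) (.neg ψ)) :=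
  res2 (le_trans' (res1 h) (imp_contra ψ χ))

lemma fus_assoc' (φ ψ χ : Form) : Ac (.imp (fus φ (fus ψ χ)) (fus (fus φ ψ) χ)) :=
  le_trans' (fus_comm _ _) (le_trans' (fus_mono (fus_comm _ _) (le_refl' _))
    (le_trans' (fus_assoc _ _ _) (le_trans' (fus_comm _ _)
      (fus_mono (fus_comm _ _) (le_refl' _)))))

/-! ### Bounds -/

/-- `t` behaves like the constant for truth and `c` is large, for the formulae with letters in
`P` -/
structure Bounds (P : Set ℕ) (t c : Form) : Prop where
  tP : t.letters ⊆ P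
  cP : c.letters ⊆ P
  ac : Ac t
  id : ∀ p ∈ P, Ac (.imp t (.imp (.letter p) (.letter p)))
  pos : ∀ p ∈ P, Ac (.imp (.letter p) c)
  neg : ∀ p ∈ P, Ac (.imp (.neg (.letter p)) c)
  nt : Ac (.imp (.neg t) c)

lemma exists_bounds (P : Set ℕ) (hP : P.Finite) (hne : P.Nonempty) :
    ∃ t c, Bounds P t c := by
  induction P, hP using Set.Finite.induction_on with
  | empty => exact absurd hne Set.not_nonempty_empty
  | @insert p P _ _ ih =>
    by_cases hP : P.Nonempty
    · obtain ⟨t, c, h⟩ := ih hP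
      refine ⟨.and (.imp (.letter p) (.letter p)) t,
        .or (.or (.or (.letter p) (.neg (.letter p))) (.neg (.imp (.letter p) (.letter p)))) c,
        ?_, ?_, ?_, ?_, ?_, ?_, ?_⟩
      · intro x hx
        simp only [Form.letters, Set.union_self, Set.mem_union, Set.mem_singleton_iff] at hx
        rcases hx with rfl | hx
        · exact Set.mem_insert _ _
        · exact Set.mem_insert_of_mem _ (h.tP hx)
      · intro x hx
        simp only [Form.letters, Set.union_self, Set.mem_union, Set.mem_singleton_iff] at hx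
        rcases hx with rfl | hx
        · exact Set.mem_insert _ _
        · exact Set.mem_insert_of_mem _ (h.cP hx)
      · exact conj (le_refl' _) h.ac
      · rintro q (rfl | hq)
        · exact and_le_left _ _
        · exact le_trans' (and_le_right _ _) (h.id q hq)
      · rintro q (rfl | hq)
        · exact le_trans' (le_or_left _ _) (le_trans' (le_or_left _ _) (le_or_left _ _))
        · exact le_trans' (h.pos q hq) (le_or_right _ _)
      · rintro q (rfl | hq)
        · exact le_trans' (le_or_right _ _) (le_trans' (le_or_left _ _) (le_or_left _ _))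
        · exact le_trans' (h.neg q hq) (le_or_right _ _)
      · exact le_trans' (neg_and_le _ _) (or_le (le_trans' (le_or_right _ _) (le_or_left _ _))
          (le_trans' h.nt (le_or_right _ _)))
    · rw [Set.not_nonempty_iff_eq_empty] at hP
      subst hP
      refine ⟨.imp (.letter p) (.letter p),
        .or (.or (.letter p) (.neg (.letter p))) (.neg (.imp (.letter p) (.letter p))),
        ?_, ?_, ?_, ?_, ?_, ?_, ?_⟩
      · intro x hx
        simpa [Form.letters] using hx
      · intro x hx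
        simpa [Form.letters] using hx
      · exact le_refl' _
      · rintro q (rfl | hq)
        · exact le_refl' _
        · exact absurd hq (Set.notMem_empty q)
      · rintro q (rfl | hq)
        · exact le_trans' (le_or_left _ _) (le_or_left _ _)
        · exact absurd hq (Set.notMem_empty q)
      · rintro q (rfl | hq)
        · exact le_trans' (le_or_right _ _) (le_or_left _ _)
        · exact absurd hq (Set.notMem_empty q)
      · exact le_or_right _ _

section

variable {P : Set ℕ} {t c : Form} (hB : Bounds P t c)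

include hB

lemma Bounds.le_id (φ : Form) (hφ : φ.letters ⊆ P) : Ac (.imp t (.imp φ φ)) := by
  induction φ with
  | letter p => exact hB.id p (hφ rfl)
  | neg φ ih => exact le_trans' (ih hφ) (imp_contra φ φ)
  | and φ ψ ih1 ih2 =>
    exact le_trans' (le_and (ih1 (Set.subset_union_left.trans hφ))
      (ih2 (Set.subset_union_right.trans hφ))) (id_and φ ψ)
  | or φ ψ ih1 ih2 =>
    exact le_trans' (le_and (ih1 (Set.subset_union_left.trans hφ))
      (ih2 (Set.subset_union_right.trans hφ))) (id_or φ ψ)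
  | imp φ ψ ih1 ih2 =>
    exact le_trans' (ih1 (Set.subset_union_left.trans hφ)) (id_imp φ ψ)

lemma Bounds.fus_t_le (φ : Form) (hφ : φ.letters ⊆ P) : Ac (.imp (fus t φ) φ) :=
  res2 (hB.le_id φ hφ)

omit hB in
lemma le_fus_of_ac {t : Form} (ht : Ac t) (φ : Form) : Ac (.imp φ (fus φ t)) :=
  le_trans' (det ht (res1 (le_refl' (fus t φ)))) (fus_comm t φ)

lemma Bounds.fus_neg_le (φ : Form) (hφ : φ.letters ⊆ P) : Ac (.imp (fus φ (.neg φ)) (.neg t)) :=
  contra' (le_trans' (hB.le_id φ hφ) (imp_mono (le_refl' φ) (dn1 φ)))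

/-- the top element -/
abbrev TT (c : Form) : Form := fus c c

/-- the bottom element -/
abbrev FF (c : Form) : Form := .neg (TT c)

lemma Bounds.fus_T_F : Ac (.imp (fus (FF c) (TT c)) (FF c)) := by
  have a : Ac (.imp (fus (FF c) c) (.neg c)) := res2 (dn2 _)
  have a' : Ac (.imp (fus c (FF c)) (.neg c)) := le_trans' (fus_comm _ _) a
  have d : Ac (.imp (.neg c) t) := le_trans' (contra' hB.nt) (dn2 _)
  -- `f ∘ ¬c ≤ f`
  have e : Ac (.imp (fus (.neg t) (.neg c)) (.neg t)) :=
    le_trans' (fus_mono (le_refl' _) d) (le_trans' (fus_comm _ _)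
      (hB.fus_t_le (.neg t) hB.tP))
  -- `T ∘ F ≤ c ∘ ¬c`
  have b : Ac (.imp (fus (TT c) (FF c)) (fus c (.neg c))) :=
    le_trans' (fus_assoc _ _ _) (fus_mono (le_refl' _) a')
  -- `(T ∘ F) ∘ F ≤ ¬c ∘ ¬c`
  have b2 : Ac (.imp (fus (fus (TT c) (FF c)) (FF c)) (fus (.neg c) (.neg c))) :=
    le_trans' (fus_mono b (le_refl' _)) (le_trans' (fus_mono (fus_comm _ _) (le_refl' _))
      (le_trans' (fus_assoc _ _ _) (fus_mono (le_refl' _) a')))
  have b3 : Ac (.imp (fus (TT c) (FF c)) (fus (.neg c) (.neg c))) :=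
    le_trans' (fus_mono (le_refl' _) (sq _)) (le_trans' (fus_assoc' _ _ _) b2)
  -- `c³ ∘ F ≤ f`
  have b4 : Ac (.imp (fus (fus c (TT c)) (FF c)) (.neg t)) :=
    le_trans' (fus_assoc _ _ _) (le_trans' (fus_mono (le_refl' _) b3)
      (le_trans' (fus_assoc' _ _ _) (le_trans' (fus_mono (hB.fus_neg_le c hB.cP) (le_refl' _)) e)))
  -- `c³ ≤ T`
  have g : Ac (.imp (fus c (TT c)) (TT c)) :=
    le_trans' (le_fus_of_ac hB.ac _) (le_trans' (fus_mono (le_refl' _) (dn1 t))
      (le_trans' (fus_contra b4) (dn2 _)))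
  have h : Ac (.imp (fus (TT c) (TT c)) (TT c)) :=
    le_trans' (fus_assoc _ _ _) (le_trans' (fus_mono (le_refl' _) g) g)
  exact le_trans' (fus_comm _ _) (fus_contra h)

lemma Bounds.bound (φ : Form) (hφ : φ.letters ⊆ P) :
    Ac (.imp (FF c) φ) ∧ Ac (.imp φ (TT c)) := by
  induction φ with
  | letter p =>
    have h1 := le_trans' (hB.pos p (hφ rfl)) (sq c)
    have h2 := le_trans' (hB.neg p (hφ rfl)) (sq c)
    exact ⟨le_trans' (contra' h2) (dn2 _), h1⟩
  | neg φ ih =>
    obtain ⟨h1, h2⟩ := ih hφ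
    exact ⟨contra' h2, le_trans' (contra' h1) (dn2 _)⟩
  | and φ ψ ih1 ih2 =>
    obtain ⟨h1, h2⟩ := ih1 (Set.subset_union_left.trans hφ)
    obtain ⟨h3, h4⟩ := ih2 (Set.subset_union_right.trans hφ)
    exact ⟨le_and h1 h3, le_trans' (and_le_left _ _) h2⟩
  | or φ ψ ih1 ih2 =>
    obtain ⟨h1, h2⟩ := ih1 (Set.subset_union_left.trans hφ)
    obtain ⟨h3, h4⟩ := ih2 (Set.subset_union_right.trans hφ)
    exact ⟨le_trans' h1 (le_or_left _ _), or_le h2 h4⟩
  | imp φ ψ ih1 ih2 =>
    obtain ⟨h1, h2⟩ := ih1 (Set.subset_union_left.trans hφ)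
    obtain ⟨h3, h4⟩ := ih2 (Set.subset_union_right.trans hφ)
    constructor
    · exact res1 (le_trans' (fus_mono (le_refl' _) h2) (le_trans' hB.fus_T_F h3))
    · -- `F ≤ φ ∘ ¬ψ`
      have h5 : Ac (.imp (FF c) (.neg ψ)) := contra' h4
      have h6 : Ac (.imp (FF c) (fus φ (.neg ψ))) := le_trans' (sq _) (fus_mono h1 h5)
      exact le_trans' (imp_mono (le_refl' _) (dn1 ψ)) (le_trans' (dn1 _)
        (le_trans' (contra' h6) (dn2 _)))

end

lemma letters_TT (c : Form) : (TT c).letters = c.letters := by simp [Form.letters]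

lemma letters_FF (c : Form) : (FF c).letters = c.letters := by simp [Form.letters]

end Pool.Agent.Q312.Mak
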