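import Mathlib

/-!
Makinson's truth-trees with parity for relevance logic.

A branch of a truth-tree is represented by the list of its nodes, in the order in which they are
added to the branch; a node carries its formula, the positions of the nodes from which it was
obtained, and the position of its partner if it is a critical node.
-/

namespace Pool.Agent.Q312.Mak

/-- Formulae over the sentence letters `0, 1, 2, ...`. -/
inductive Form
  /-- sentence letters -/
  | letter (p : ℕ)
  /-- negation -/
  | neg (φ : Form)
  /-- conjunction -/
  | and (φ ψ : Form)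
  /-- disjunction -/
  | or (φ ψ : Form)
  /-- the arrow -/
  | imp (φ ψ : Form)

/-- The sentence letters of a formula. -/
def Form.letters : Form → Set ℕ
  | .letter p => {p}
  | .neg φ => φ.letters
  | .and φ ψ => φ.letters ∪ ψ.letters
  | .or φ ψ => φ.letters ∪ ψ.letters
  | .imp φ ψ => φ.letters ∪ ψ.letters

/-- The classical truth value of a formula when the arrow is read as material implication. -/
def Form.material (v : ℕ → Prop) : Form → Prop
  | .letter p => v p
  | .neg φ => ¬ φ.material v
  | .and φ ψ => φ.material v ∧ ψ.material v
  | .or φ ψ => φ.material v ∨ ψ.material v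
  | .imp φ ψ => ¬ φ.material v ∨ ψ.material v

/-- Material tautologies. -/
def MaterialTautology (φ : Form) : Prop := ∀ v, φ.material v

/-- A node of a truth-tree, seen as an element of a branch. -/
structure Node where
  /-- the formula of the node -/
  form : Form
  /-- the positions on the branch of the nodes from which it was obtained -/
  inputs : List ℕ
  /-- the position of the partner, for a critical node -/
  partner : Option ℕ

/-- `InTrace B i k`: the node at the position `k` belongs to the trace of the node at the position
`i` of the branch `B`. -/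
inductive InTrace (B : List Node) : ℕ → ℕ → Prop
  | self (i : ℕ) : InTrace B i i
  | step (i j k : ℕ) (n : Node) : B[i]? = some n → j ∈ n.inputs → InTrace B j k → InTrace B i k

/-- Parity of the pair of nodes at the positions `i` and `j` of the branch `B`: the trace of the pair
contains with each critical node its partner. -/
def Parity (B : List Node) (i j : ℕ) : Prop :=
  ∀ (c : ℕ) (n : Node) (p : ℕ), B[c]? = some n → n.partner = some p →
    InTrace B i c ∨ InTrace B j c → InTrace B i p ∨ InTrace B j p

/-- Strengthened parity: the trace of the pair contains all critical nodes of the branch and their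
partners. -/
def StrongParity (B : List Node) (i j : ℕ) : Prop :=
  ∀ (c : ℕ) (n : Node) (p : ℕ), B[c]? = some n → n.partner = some p →
    (InTrace B i c ∨ InTrace B j c) ∧ (InTrace B i p ∨ InTrace B j p)

/-- `Closes K rec B`: the branch `B` can be continued by the rules to a finite tree such that every
branch of this tree contains a crash-pair satisfying the condition `K`. The recursive rule may be
used iff `rec` holds; its side condition is that the formula `χ → θ` itself has such a tree. -/
inductive Closes (K : List Node → ℕ → ℕ → Prop) (rec : Prop) : List Node → Prop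
  /-- a branch with a crash-pair satisfying `K` -/
  | crash (B : List Node) (i j : ℕ) (n m : Node) : B[i]? = some n → B[j]? = some m →
      m.form = .neg n.form → K B i j → Closes K rec B
  /-- from `φ ∧ ψ` add `φ`, `ψ` -/
  | and (B : List Node) (i : ℕ) (n : Node) (φ ψ : Form) : B[i]? = some n → n.form = .and φ ψ →
      Closes K rec (B ++ [⟨φ, [i], none⟩, ⟨ψ, [i], none⟩]) → Closes K rec B
  /-- from `¬(φ ∨ ψ)` add `¬φ`, `¬ψ` -/
  | nor (B : List Node) (i : ℕ) (n : Node) (φ ψ : Form) : B[i]? = some n →
      n.form = .neg (.or φ ψ) →
      Closes K rec (B ++ [⟨.neg φ, [i], none⟩, ⟨.neg ψ, [i], none⟩]) → Closes K rec B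
  /-- from `¬¬φ` add `φ` -/
  | dneg (B : List Node) (i : ℕ) (n : Node) (φ : Form) : B[i]? = some n →
      n.form = .neg (.neg φ) → Closes K rec (B ++ [⟨φ, [i], none⟩]) → Closes K rec B
  /-- from `¬(φ ∧ ψ)` fork into `¬φ | ¬ψ` -/
  | nand (B : List Node) (i : ℕ) (n : Node) (φ ψ : Form) : B[i]? = some n →
      n.form = .neg (.and φ ψ) → Closes K rec (B ++ [⟨.neg φ, [i], none⟩]) →
      Closes K rec (B ++ [⟨.neg ψ, [i], none⟩]) → Closes K rec B
  /-- from `φ ∨ ψ` fork into `φ | ψ` -/
  | or (B : List Node) (i : ℕ) (n : Node) (φ ψ : Form) : B[i]? = some n → n.form = .or φ ψ →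
      Closes K rec (B ++ [⟨φ, [i], none⟩]) → Closes K rec (B ++ [⟨ψ, [i], none⟩]) →
      Closes K rec B
  /-- modus ponens: from `φ` and `φ → ψ` add `ψ` -/
  | mp (B : List Node) (i j : ℕ) (n m : Node) (ψ : Form) : B[i]? = some n → B[j]? = some m →
      m.form = .imp n.form ψ → Closes K rec (B ++ [⟨ψ, [i, j], none⟩]) → Closes K rec B
  /-- counter-case: from `¬(φ → ψ)` add the critical nodes `φ`, `¬ψ`, which are partners -/
  | counter (B : List Node) (i : ℕ) (n : Node) (φ ψ : Form) : B[i]? = some n →
      n.form = .neg (.imp φ ψ) →
      Closes K rec (B ++ [⟨φ, [i], some (B.length + 1)⟩, ⟨.neg ψ, [i], some B.length⟩]) →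
      Closes K rec B
  /-- recursive rule: from `χ` add `θ` if `χ → θ` is acceptable -/
  | recursive (B : List Node) (i : ℕ) (n : Node) (θ : Form) : rec → B[i]? = some n →
      Closes K rec [⟨.neg (.imp n.form θ), [], none⟩] →
      Closes K rec (B ++ [⟨θ, [i], none⟩]) → Closes K rec B

/-- Directly acceptable formulae. -/
def DA (φ : Form) : Prop := Closes Parity False [⟨.neg φ, [], none⟩]

/-- Acceptable formulae. -/
def Acceptable (φ : Form) : Prop := Closes Parity True [⟨.neg φ, [], none⟩]

/-- Directly acceptable formulae with strengthened parity. -/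
def DAs (φ : Form) : Prop := Closes StrongParity False [⟨.neg φ, [], none⟩]

/-- Acceptable formulae with strengthened parity. -/
def Acceptables (φ : Form) : Prop := Closes StrongParity True [⟨.neg φ, [], none⟩]

end Pool.Agent.Q312.Mak
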