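import Pool.Agent.Q312.Mak.Basic

/-!
A decision procedure for parity.
-/

namespace Pool.Agent.Q312.Mak

/-- the shape of a branch -/
def shape (B : List Node) : List (List ℕ × Option ℕ) := B.map fun n => (n.inputs, n.partner)

/-- the inputs come before the node -/
def wfB (S : List (List ℕ × Option ℕ)) : Bool :=
  (List.range S.length).all fun i => ((S.getD i ([], none)).1).all fun j => decide (j < i)

/-- trace membership, with fuel -/
def trB (S : List (List ℕ × Option ℕ)) : ℕ → ℕ → ℕ → Bool
  | 0, i, k => i == k
  | f + 1, i, k => (i == k) || ((S.getD i ([], none)).1).any fun j => trB S f j k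

/-- parity -/
def parB (S : List (List ℕ × Option ℕ)) (i j : ℕ) : Bool :=
  (List.range S.length).all fun c => match (S.getD c ([], none)).2 with
    | none => true
    | some p => !(trB S S.length i c || trB S S.length j c) ||
        (trB S S.length i p || trB S S.length j p)

/-- strengthened parity -/
def sparB (S : List (List ℕ × Option ℕ)) (i j : ℕ) : Bool :=
  (List.range S.length).all fun c => match (S.getD c ([], none)).2 with
    | none => true
    | some p => (trB S S.length i c || trB S S.length j c) &&
        (trB S S.length i p || trB S S.length j p)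

lemma getD_shape (B : List Node) (i : ℕ) (n : Node) (h : B[i]? = some n) :
    (shape B).getD i ([], none) = (n.inputs, n.partner) := by
  rw [List.getD_eq_getElem?_getD, shape, List.getElem?_map, h]
  rfl

lemma trB_sound (B : List Node) (f i k : ℕ) (hi : i < B.length) (hwf : wfB (shape B) = true)
    (h : trB (shape B) f i k = true) : InTrace B i k := by
  induction f generalizing i with
  | zero =>
    simp only [trB, beq_iff_eq] at h
    subst h
    exact .self i
  | succ f ih =>
    simp only [trB, Bool.or_eq_true, beq_iff_eq, List.any_eq_true] at h
    rcases h with rfl | ⟨j, hj, h⟩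
    · exact .self i
    · have e := getD_shape B i B[i] (List.getElem?_eq_getElem hi)
      have hji : j < i := by
        simp only [wfB, List.all_eq_true, List.mem_range, decide_eq_true_eq] at hwf
        exact hwf i (by simpa [shape] using hi) j hj
      rw [e] at hj
      exact .step i j k _ (List.getElem?_eq_getElem hi) hj (ih j (hji.trans hi) h)

lemma trB_complete (B : List Node) (i k : ℕ) (hwf : wfB (shape B) = true)
    (h : InTrace B i k) : ∀ f, i ≤ f → trB (shape B) f i k = true := by
  induction h with
  | self i =>
    intro f _
    rcases f with _ | f <;> simp [trB]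
  | step i j k n hn hj _ ih =>
    intro f hf
    have hi : i < B.length := (List.getElem?_eq_some_iff.mp hn).1
    have e := getD_shape B i n hn
    have hji : j < i := by
      simp only [wfB, List.all_eq_true, List.mem_range, decide_eq_true_eq] at hwf
      exact hwf i (by simpa [shape] using hi) j (by rw [e]; exact hj)
    rcases f with _ | f
    · omega
    · simp only [trB, Bool.or_eq_true, beq_iff_eq, List.any_eq_true]
      right
      exact ⟨j, by rw [e]; exact hj, ih f (by omega)⟩

lemma parity_of (B : List Node) (i j : ℕ) (hi : i < B.length) (hj : j < B.length)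
    (S : List (List ℕ × Option ℕ)) (hS : shape B = S) (hwf : wfB S = true)
    (h : parB S i j = true) : Parity B i j := by
  subst hS
  intro c n p hc hp htr
  have hcB : c < B.length := (List.getElem?_eq_some_iff.mp hc).1
  have hlen : (shape B).length = B.length := by simp [shape]
  simp only [parB, List.all_eq_true, List.mem_range] at h
  have h1 := h c (by rw [hlen]; exact hcB)
  rw [getD_shape B c n hc, hp] at h1
  simp only [Bool.or_eq_true, Bool.not_eq_true', Bool.or_eq_false_iff] at h1
  rcases h1 with ⟨h1, h2⟩ | h1
  · rcases htr with h3 | h3
    · rw [trB_complete B i c hwf h3 _ (by rw [hlen]; exact hi.le)] at h1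
      exact absurd h1 (by simp)
    · rw [trB_complete B j c hwf h3 _ (by rw [hlen]; exact hj.le)] at h2
      exact absurd h2 (by simp)
  · rcases h1 with h1 | h1
    · exact Or.inl (trB_sound B _ i p hi hwf h1)
    · exact Or.inr (trB_sound B _ j p hj hwf h1)

lemma strongParity_of (B : List Node) (i j : ℕ) (hi : i < B.length) (hj : j < B.length)
    (S : List (List ℕ × Option ℕ)) (hS : shape B = S) (hwf : wfB S = true)
    (h : sparB S i j = true) : StrongParity B i j := by
  subst hS
  intro c n p hc hp
  have hcB : c < B.length := (List.getElem?_eq_some_iff.mp hc).1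
  have hlen : (shape B).length = B.length := by simp [shape]
  simp only [sparB, List.all_eq_true, List.mem_range] at h
  have h1 := h c (by rw [hlen]; exact hcB)
  rw [getD_shape B c n hc, hp] at h1
  simp only [Bool.and_eq_true, Bool.or_eq_true] at h1
  obtain ⟨h1, h2⟩ := h1
  exact ⟨h1.imp (trB_sound B _ i c hi hwf) (trB_sound B _ j c hj hwf),
    h2.imp (trB_sound B _ i p hi hwf) (trB_sound B _ j p hj hwf)⟩

end Pool.Agent.Q312.Mak
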