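import Pool.Agent.Q312.Mak.Basic

/-!
A labelled version of the truth-trees, and its relation with the truth-trees.
-/

namespace Pool.Agent.Q312.Mak

/-- labels: sets of critical nodes; the partners are `(k, false)` and `(k, true)` -/
abbrev Label := Set (ℕ × Bool)

/-- balanced labels -/
def Bal (L : Label) : Prop := ∀ k b, (k, b) ∈ L → (k, !b) ∈ L

/-- Labelled trees. All indices of critical nodes in `Γ` are smaller than `n`. -/
inductive LC : ℕ → Set (Form × Label) → Prop
  | crash (n : ℕ) (Γ : Set (Form × Label)) (ζ : Form) (L L' : Label) :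
      (ζ, L) ∈ Γ → (.neg ζ, L') ∈ Γ → Bal (L ∪ L') → LC n Γ
  | and (n : ℕ) (Γ : Set (Form × Label)) (φ ψ : Form) (L : Label) : (.and φ ψ, L) ∈ Γ →
      LC n (insert (φ, L) (insert (ψ, L) Γ)) → LC n Γ
  | nor (n : ℕ) (Γ : Set (Form × Label)) (φ ψ : Form) (L : Label) : (.neg (.or φ ψ), L) ∈ Γ →
      LC n (insert (.neg φ, L) (insert (.neg ψ, L) Γ)) → LC n Γ
  | dneg (n : ℕ) (Γ : Set (Form × Label)) (φ : Form) (L : Label) : (.neg (.neg φ), L) ∈ Γ →
      LC n (insert (φ, L) Γ) → LC n Γ
  | nand (n : ℕ) (Γ : Set (Form × Label)) (φ ψ : Form) (L : Label) : (.neg (.and φ ψ), L) ∈ Γ →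
      LC n (insert (.neg φ, L) Γ) → LC n (insert (.neg ψ, L) Γ) → LC n Γ
  | or (n : ℕ) (Γ : Set (Form × Label)) (φ ψ : Form) (L : Label) : (.or φ ψ, L) ∈ Γ →
      LC n (insert (φ, L) Γ) → LC n (insert (ψ, L) Γ) → LC n Γ
  | mp (n : ℕ) (Γ : Set (Form × Label)) (φ ψ : Form) (L L' : Label) : (φ, L) ∈ Γ →
      (.imp φ ψ, L') ∈ Γ → LC n (insert (ψ, L ∪ L') Γ) → LC n Γ
  | counter (n m : ℕ) (Γ : Set (Form × Label)) (φ ψ : Form) (L : Label) : n ≤ m →
      (.neg (.imp φ ψ), L) ∈ Γ →
      LC (m + 1) (insert (φ, insert (m, false) L) (insert (.neg ψ, insert (m, true) L) Γ)) →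
      LC n Γ
  | recursive (n : ℕ) (Γ : Set (Form × Label)) (χ θ : Form) (L : Label) : (χ, L) ∈ Γ →
      LC 0 {(.neg (.imp χ θ), ∅)} → LC n (insert (θ, L) Γ) → LC n Γ

/-- acceptable formulae, by labelled trees -/
def Ac (φ : Form) : Prop := LC 0 {(.neg φ, ∅)}

lemma LC.weaken {n : ℕ} {Γ : Set (Form × Label)} (h : LC n Γ) :
    ∀ {Γ' : Set (Form × Label)} {n' : ℕ}, n' ≤ n → Γ ⊆ Γ' → LC n' Γ' := by
  induction h with
  | crash n Γ ζ L L' h1 h2 h3 => exact fun _ hs => .crash _ _ ζ L L' (hs h1) (hs h2) h3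
  | and n Γ φ ψ L h1 _ ih =>
    exact fun hn hs => .and _ _ φ ψ L (hs h1)
      (ih hn (Set.insert_subset_insert (Set.insert_subset_insert hs)))
  | nor n Γ φ ψ L h1 _ ih =>
    exact fun hn hs => .nor _ _ φ ψ L (hs h1)
      (ih hn (Set.insert_subset_insert (Set.insert_subset_insert hs)))
  | dneg n Γ φ L h1 _ ih =>
    exact fun hn hs => .dneg _ _ φ L (hs h1) (ih hn (Set.insert_subset_insert hs))
  | nand n Γ φ ψ L h1 _ _ ih1 ih2 =>
    exact fun hn hs => .nand _ _ φ ψ L (hs h1) (ih1 hn (Set.insert_subset_insert hs))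
      (ih2 hn (Set.insert_subset_insert hs))
  | or n Γ φ ψ L h1 _ _ ih1 ih2 =>
    exact fun hn hs => .or _ _ φ ψ L (hs h1) (ih1 hn (Set.insert_subset_insert hs))
      (ih2 hn (Set.insert_subset_insert hs))
  | mp n Γ φ ψ L L' h1 h2 _ ih =>
    exact fun hn hs => .mp _ _ φ ψ L L' (hs h1) (hs h2) (ih hn (Set.insert_subset_insert hs))
  | counter n m Γ φ ψ L h1 h2 _ ih =>
    exact fun hn hs => .counter _ m _ φ ψ L (hn.trans h1) (hs h2)
      (ih le_rfl (Set.insert_subset_insert (Set.insert_subset_insert hs)))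
  | recursive n Γ χ θ L h1 h2 _ _ ih2 =>
    exact fun hn hs => .recursive _ _ χ θ L (hs h1) h2 (ih2 hn (Set.insert_subset_insert hs))

/-! ### Traces in extended branches -/

/-- the inputs come before the nodes -/
def WF (B : List Node) : Prop := ∀ (i : ℕ) (n : Node), B[i]? = some n → ∀ j ∈ n.inputs, j < i

lemma WF.append {B : List Node} (h : WF B) (C : List Node)
    (hC : ∀ n ∈ C, ∀ j ∈ n.inputs, j < B.length) : WF (B ++ C) := by
  intro i n hi j hj
  by_cases hiB : i < B.length
  · rw [List.getElem?_append_left hiB] at hi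
    exact h i n hi j hj
  · have hiB' := not_lt.mp hiB
    rw [List.getElem?_append_right hiB'] at hi
    exact (hC n (List.mem_of_getElem? hi) j hj).trans_le hiB'

lemma WF.inTrace_le {B : List Node} (h : WF B) {i k : ℕ} (hik : InTrace B i k) : k ≤ i := by
  induction hik with
  | self i => exact le_rfl
  | step i j k n hn hj _ ih => exact ih.trans (h i n hn j hj).le

lemma inTrace_append_old {B : List Node} (h : WF B) (C : List Node) {i k : ℕ}
    (hi : i < B.length) : InTrace (B ++ C) i k ↔ InTrace B i k := by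
  constructor
  · intro h1
    induction h1 with
    | self i => exact .self i
    | step i j k n hn hj _ ih =>
      rw [List.getElem?_append_left hi] at hn
      exact .step i j k n hn hj (ih ((h i n hn j hj).trans hi))
  · intro h1
    induction h1 with
    | self i => exact .self i
    | step i j k n hn hj _ ih =>
      exact .step i j k n (by rw [List.getElem?_append_left hi]; exact hn) hj
        (ih ((h i n hn j hj).trans hi))

lemma inTrace_append_new {B : List Node} (h : WF B) (C : List Node) {l k : ℕ} {n : Node}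
    (hl : C[l]? = some n) (hn : ∀ j ∈ n.inputs, j < B.length) :
    InTrace (B ++ C) (B.length + l) k ↔ k = B.length + l ∨ ∃ j ∈ n.inputs, InTrace B j k := by
  have e : (B ++ C)[B.length + l]? = some n := by
    rw [List.getElem?_append_right (by omega)]
    simpa using hl
  constructor
  · intro h1
    cases h1 with
    | self _ => exact Or.inl rfl
    | step _ j _ m hm hj h2 =>
      rw [e] at hm
      simp only [Option.some.injEq] at hm
      subst hm
      exact Or.inr ⟨j, hj, (inTrace_append_old h C (hn j hj)).mp h2⟩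
  · rintro (rfl | ⟨j, hj, h2⟩)
    · exact .self _
    · exact .step _ j _ n e hj ((inTrace_append_old h C (hn j hj)).mpr h2)

/-! ### From labelled trees to truth-trees -/

/-- `B` represents `Γ`, where `f` gives the names of the critical nodes -/
structure Rep (n : ℕ) (Γ : Set (Form × Label)) (B : List Node) (f : ℕ → ℕ × Bool) : Prop where
  wf : WF B
  lab : ∀ φ L, (φ, L) ∈ Γ → ∀ x ∈ L, x.1 < n
  par : ∀ (c : ℕ) (m : Node) (p : ℕ), B[c]? = some m → m.partner = some p →
    (f c).1 < n ∧ p < B.length ∧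
    f p = ((f c).1, !(f c).2) ∧ ∃ m', B[p]? = some m' ∧ m'.partner = some c
  rep : ∀ φ L, (φ, L) ∈ Γ → ∃ (i : ℕ) (m : Node), B[i]? = some m ∧ m.form = φ ∧
    ∀ (c : ℕ) (m' : Node) (p : ℕ), B[c]? = some m' → m'.partner = some p →
      (InTrace B i c ↔ f c ∈ L)

lemma Rep.lt {n : ℕ} {Γ : Set (Form × Label)} {B : List Node} {f : ℕ → ℕ × Bool}
    (_ : Rep n Γ B f) {i : ℕ} {m : Node} (h : B[i]? = some m) : i < B.length :=
  (List.getElem?_eq_some_iff.mp h).1

/-- adding non-critical nodes -/
lemma Rep.extend {n : ℕ} {Γ : Set (Form × Label)} {B : List Node} {f : ℕ → ℕ × Bool}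
    (h : Rep n Γ B f) (C : List Node) (hC : ∀ m ∈ C, m.partner = none ∧
      ∀ j ∈ m.inputs, j < B.length) (Γ' : Set (Form × Label))
    (hΓ : ∀ φ L, (φ, L) ∈ Γ' → (φ, L) ∈ Γ ∨ (∀ x ∈ L, x.1 < n) ∧ ∃ m ∈ C, m.form = φ ∧
      ∀ (c : ℕ) (m' : Node) (p : ℕ), B[c]? = some m' → m'.partner = some p →
        ((∃ j ∈ m.inputs, InTrace B j c) ↔ f c ∈ L)) :
    Rep n Γ' (B ++ C) f := by
  have hold : ∀ (c : ℕ) (m : Node) (p : ℕ), (B ++ C)[c]? = some m → m.partner = some p →
      B[c]? = some m := by
    intro c m p hc hp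
    by_cases hcB : c < B.length
    · rwa [List.getElem?_append_left hcB] at hc
    · rw [List.getElem?_append_right (not_lt.mp hcB)] at hc
      rw [(hC m (List.mem_of_getElem? hc)).1] at hp
      exact absurd hp (by simp)
  refine ⟨h.wf.append C (fun m hm => (hC m hm).2), ?_, ?_, ?_⟩
  · intro φ L hφ
    rcases hΓ φ L hφ with h1 | ⟨h1, -⟩
    · exact h.lab φ L h1
    · exact h1
  · intro c m p hc hp
    obtain ⟨h1, h2, h3, m', h4, h5⟩ := h.par c m p (hold c m p hc hp) hp
    refine ⟨h1, by rw [List.length_append]; omega, h3, m', ?_, h5⟩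
    rw [List.getElem?_append_left h2]
    exact h4
  · intro φ L hφ
    rcases hΓ φ L hφ with h1 | ⟨-, m, hm, h1, h2⟩
    · obtain ⟨i, m, h2, h3, h4⟩ := h.rep φ L h1
      have hi := h.lt h2
      refine ⟨i, m, by rw [List.getElem?_append_left hi]; exact h2, h3, ?_⟩
      intro c m' p hc hp
      rw [inTrace_append_old h.wf C hi]
      exact h4 c m' p (hold c m' p hc hp) hp
    · obtain ⟨l, hl, hl'⟩ := List.mem_iff_getElem.mp hm
      have hl2 : C[l]? = some m := by rw [List.getElem?_eq_getElem hl, hl']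
      refine ⟨B.length + l, m, ?_, h1, ?_⟩
      · rw [List.getElem?_append_right (by omega)]
        simpa using hl2
      · intro c m' p hc hp
        have hc' := hold c m' p hc hp
        rw [inTrace_append_new h.wf C hl2 (hC m hm).2, ← h2 c m' p hc' hp]
        constructor
        · rintro (rfl | h3)
          · exact absurd (h.lt hc') (by omega)
          · exact h3
        · exact Or.inr

/-- adding a pair of critical nodes -/
lemma Rep.extend_counter {n : ℕ} {Γ : Set (Form × Label)} {B : List Node} {f : ℕ → ℕ × Bool}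
    (h : Rep n Γ B f) (m : ℕ) (hnm : n ≤ m) (i : ℕ) (hi : i < B.length) (φ ψ : Form) (L : Label)
    (hL : ∀ (c : ℕ) (m' : Node) (p : ℕ), B[c]? = some m' → m'.partner = some p →
      (InTrace B i c ↔ f c ∈ L)) (hLn : ∀ x ∈ L, x.1 < n) :
    Rep (m + 1) (insert (φ, insert (m, false) L) (insert (ψ, insert (m, true) L) Γ))
      (B ++ [⟨φ, [i], some (B.length + 1)⟩, ⟨ψ, [i], some B.length⟩])
      (fun c => if c < B.length then f c else if c = B.length then (m, false) else (m, true)) := by
  set C : List Node := [⟨φ, [i], some (B.length + 1)⟩, ⟨ψ, [i], some B.length⟩] with hCdef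
  set g : ℕ → ℕ × Bool :=
    fun c => if c < B.length then f c else if c = B.length then (m, false) else (m, true) with hg
  have e0 : (B ++ C)[B.length]? = some ⟨φ, [i], some (B.length + 1)⟩ := by
    rw [List.getElem?_append_right le_rfl]; simp [hCdef]
  have e1 : (B ++ C)[B.length + 1]? = some ⟨ψ, [i], some B.length⟩ := by
    rw [List.getElem?_append_right (by omega)]; simp [hCdef]
  have g0 : g B.length = (m, false) := by simp [hg]
  have g1 : g (B.length + 1) = (m, true) := by simp [hg]
  have gold : ∀ c, c < B.length → g c = f c := by intro c hc; simp [hg, hc]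
  have hcase : ∀ c m', (B ++ C)[c]? = some m' →
      (c < B.length ∧ B[c]? = some m') ∨ (c = B.length ∧ m' = ⟨φ, [i], some (B.length + 1)⟩) ∨
      (c = B.length + 1 ∧ m' = ⟨ψ, [i], some B.length⟩) := by
    intro c m' hc
    by_cases hcB : c < B.length
    · rw [List.getElem?_append_left hcB] at hc
      exact Or.inl ⟨hcB, hc⟩
    · have hlt := (List.getElem?_eq_some_iff.mp hc).1
      simp only [List.length_append, hCdef, List.length_cons, List.length_nil] at hlt
      have : c = B.length ∨ c = B.length + 1 := by omega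
      rcases this with rfl | rfl
      · rw [e0] at hc
        exact Or.inr (Or.inl ⟨rfl, (Option.some.inj hc).symm⟩)
      · rw [e1] at hc
        exact Or.inr (Or.inr ⟨rfl, (Option.some.inj hc).symm⟩)
  have hwfC : ∀ m' ∈ C, ∀ j ∈ m'.inputs, j < B.length := by
    intro m' hm' j hj
    simp only [hCdef, List.mem_cons, List.not_mem_nil, or_false] at hm'
    rcases hm' with rfl | rfl <;> (rw [List.mem_singleton.mp hj]; exact hi)
  have hfresh : ∀ c m' p, B[c]? = some m' → m'.partner = some p → (f c).1 < m :=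
    fun c m' p hc hp => lt_of_lt_of_le (h.par c m' p hc hp).1 hnm
  have hLm : ∀ b, (m, b) ∉ L := fun b h1 => absurd (hLn _ h1) (by simpa using hnm)
  have hnew : ∀ (φ' : Form) (b : Bool) (l : ℕ) (nd : Node), C[l]? = some nd → nd.form = φ' →
      nd.inputs = [i] → g (B.length + l) = (m, b) →
      (∀ x, x = B.length ∨ x = B.length + 1 → (g x = (m, b) ↔ x = B.length + l)) →
      ∃ (i' : ℕ) (m' : Node), (B ++ C)[i']? = some m' ∧ m'.form = φ' ∧
        ∀ (c : ℕ) (m'' : Node) (p : ℕ), (B ++ C)[c]? = some m'' → m''.partner = some p →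
          (InTrace (B ++ C) i' c ↔ g c ∈ insert (m, b) L) := by
    intro φ' b l nd hl hf hin hgl hgx
    refine ⟨B.length + l, nd, ?_, hf, ?_⟩
    · rw [List.getElem?_append_right (by omega)]
      simpa using hl
    · intro c m'' p hc hp
      rw [inTrace_append_new h.wf C hl (by rw [hin]; simpa using hi), hin]
      simp only [List.mem_singleton, exists_eq_left, Set.mem_insert_iff]
      rcases hcase c m'' hc with ⟨h1, h2⟩ | ⟨h1, h2⟩ | ⟨h1, h2⟩
      · rw [gold c h1, hL c m'' p h2 hp]
        have h3 : c ≠ B.length + l := by omega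
        have h4 : f c ≠ (m, b) := fun h5 => by
          have := hfresh c m'' p h2 hp
          rw [h5] at this
          simp at this
        simp [h3, h4]
      · have h3 : ¬ InTrace B i c := fun h4 => by
          have := h.wf.inTrace_le h4
          omega
        have h4 : g c ∉ L := by rw [h1, g0]; exact hLm _
        rw [hgx c (Or.inl h1)]
        simp [h3, h4]
      · have h3 : ¬ InTrace B i c := fun h4 => by
          have := h.wf.inTrace_le h4
          omega
        have h4 : g c ∉ L := by rw [h1, g1]; exact hLm _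
        rw [hgx c (Or.inr h1)]
        simp [h3, h4]
  refine ⟨h.wf.append C hwfC, ?_, ?_, ?_⟩
  · intro φ' L' hφ x hx
    rcases hφ with h1 | h1 | h1
    · simp only [Prod.mk.injEq] at h1
      rw [h1.2] at hx
      rcases hx with rfl | hx
      · simp
      · have := hLn x hx
        omega
    · simp only [Prod.mk.injEq] at h1
      rw [h1.2] at hx
      rcases hx with rfl | hx
      · simp
      · have := hLn x hx
        omega
    · have := h.lab φ' L' h1 x hx
      omega
  · intro c m' p hc hp
    rcases hcase c m' hc with ⟨h1, h2⟩ | ⟨rfl, rfl⟩ | ⟨rfl, rfl⟩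
    · obtain ⟨h3, h4, h5, m'', h6, h7⟩ := h.par c m' p h2 hp
      refine ⟨by rw [gold c h1]; omega, by rw [List.length_append]; omega, ?_, m'', ?_, h7⟩
      · rw [gold c h1, gold p h4, h5]
      · rw [List.getElem?_append_left h4]; exact h6
    · simp only [Option.some.injEq] at hp
      subst hp
      exact ⟨by rw [g0]; simp, by simp [hCdef], by rw [g0, g1]; rfl, _, e1, rfl⟩
    · simp only [Option.some.injEq] at hp
      subst hp
      exact ⟨by rw [g1]; simp, by simp [hCdef], by rw [g0, g1]; rfl, _, e0, rfl⟩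
  · intro φ' L' hφ
    rcases hφ with h1 | h1 | h1
    · simp only [Prod.mk.injEq] at h1
      obtain ⟨rfl, rfl⟩ := h1
      refine hnew φ' false 0 _ rfl rfl rfl g0 ?_
      rintro x (rfl | rfl)
      · simp [g0]
      · simp [g1]
    · simp only [Prod.mk.injEq] at h1
      obtain ⟨rfl, rfl⟩ := h1
      refine hnew φ' true 1 _ rfl rfl rfl g1 ?_
      rintro x (rfl | rfl)
      · simp [g0]
      · simp [g1]
    · obtain ⟨i', m', h2, h3, h4⟩ := h.rep φ' L' h1
      have hi' := h.lt h2
      refine ⟨i', m', by rw [List.getElem?_append_left hi']; exact h2, h3, ?_⟩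
      intro c m'' p hc hp
      rw [inTrace_append_old h.wf C hi']
      rcases hcase c m'' hc with ⟨h5, h6⟩ | ⟨h5, h6⟩ | ⟨h5, h6⟩
      · rw [gold c h5]
        exact h4 c m'' p h6 hp
      · have h7 : ¬ InTrace B i' c := fun h8 => by
          have := h.wf.inTrace_le h8
          omega
        have h8 : g c ∉ L' := fun h9 => by
          have := h.lab φ' L' h1 _ h9
          rw [h5, g0] at this
          simp only at this
          omega
        simp [h7, h8]
      · have h7 : ¬ InTrace B i' c := fun h8 => by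
          have := h.wf.inTrace_le h8
          omega
        have h8 : g c ∉ L' := fun h9 => by
          have := h.lab φ' L' h1 _ h9
          rw [h5, g1] at this
          simp only at this
          omega
        simp [h7, h8]

lemma rep_root (φ : Form) (f : ℕ → ℕ × Bool) :
    Rep 0 {(φ, (∅ : Label))} [⟨φ, [], none⟩] f := by
  refine ⟨?_, ?_, ?_, ?_⟩
  · intro i n hi
    rcases i with _ | i
    · simp only [List.getElem?_cons_zero, Option.some.injEq] at hi
      subst hi
      simp
    · simp at hi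
  · intro φ' L h x hx
    simp only [Set.mem_singleton_iff, Prod.mk.injEq] at h
    rw [h.2] at hx
    exact absurd hx (Set.notMem_empty x)
  · intro c m p hc hp
    rcases c with _ | c
    · simp only [List.getElem?_cons_zero, Option.some.injEq] at hc
      subst hc
      simp at hp
    · simp at hc
  · intro φ' L h
    simp only [Set.mem_singleton_iff, Prod.mk.injEq] at h
    obtain ⟨rfl, rfl⟩ := h
    refine ⟨0, _, rfl, rfl, ?_⟩
    intro c m p hc hp
    rcases c with _ | c
    · simp only [List.getElem?_cons_zero, Option.some.injEq] at hc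
      subst hc
      simp at hp
    · simp at hc

theorem closes_of_lc {n : ℕ} {Γ : Set (Form × Label)} (h : LC n Γ) :
    ∀ (B : List Node) (f : ℕ → ℕ × Bool), Rep n Γ B f → Closes Parity True B := by
  induction h with
  | crash n Γ ζ L L' h1 h2 h3 =>
    intro B f hr
    obtain ⟨i, m, a1, a2, a3⟩ := hr.rep _ _ h1
    obtain ⟨j, m', b1, b2, b3⟩ := hr.rep _ _ h2
    refine .crash B i j m m' a1 b1 (by rw [a2, b2]) ?_
    intro c nd p hc hp htr
    obtain ⟨-, -, h4, nd', h5, h6⟩ := hr.par c nd p hc hp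
    rw [a3 c nd p hc hp, b3 c nd p hc hp] at htr
    rw [a3 p nd' c h5 h6, b3 p nd' c h5 h6, h4]
    have := h3 (f c).1 (f c).2 htr
    exact this
  | and n Γ φ ψ L h1 _ ih =>
    intro B f hr
    obtain ⟨i, m, a1, a2, a3⟩ := hr.rep _ _ h1
    have hi := hr.lt a1
    refine .and B i m φ ψ a1 a2 (ih _ f (hr.extend _ ?_ _ ?_))
    · intro m hm
      simp only [List.mem_cons, List.not_mem_nil, or_false] at hm
      rcases hm with rfl | rfl <;> exact ⟨rfl, by simpa using hi⟩
    · intro χ K hχ
      rcases hχ with h2 | h2 | h2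
      · simp only [Prod.mk.injEq] at h2
        obtain ⟨rfl, rfl⟩ := h2
        exact Or.inr ⟨hr.lab _ _ h1, _, List.mem_cons_self, rfl, by simpa using a3⟩
      · simp only [Prod.mk.injEq] at h2
        obtain ⟨rfl, rfl⟩ := h2
        exact Or.inr ⟨hr.lab _ _ h1, _, List.mem_cons_of_mem _ List.mem_cons_self, rfl,
          by simpa using a3⟩
      · exact Or.inl h2
  | nor n Γ φ ψ L h1 _ ih =>
    intro B f hr
    obtain ⟨i, m, a1, a2, a3⟩ := hr.rep _ _ h1
    have hi := hr.lt a1
    refine .nor B i m φ ψ a1 a2 (ih _ f (hr.extend _ ?_ _ ?_))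
    · intro m hm
      simp only [List.mem_cons, List.not_mem_nil, or_false] at hm
      rcases hm with rfl | rfl <;> exact ⟨rfl, by simpa using hi⟩
    · intro χ K hχ
      rcases hχ with h2 | h2 | h2
      · simp only [Prod.mk.injEq] at h2
        obtain ⟨rfl, rfl⟩ := h2
        exact Or.inr ⟨hr.lab _ _ h1, _, List.mem_cons_self, rfl, by simpa using a3⟩
      · simp only [Prod.mk.injEq] at h2
        obtain ⟨rfl, rfl⟩ := h2
        exact Or.inr ⟨hr.lab _ _ h1, _, List.mem_cons_of_mem _ List.mem_cons_self, rfl,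
          by simpa using a3⟩
      · exact Or.inl h2
  | dneg n Γ φ L h1 _ ih =>
    intro B f hr
    obtain ⟨i, m, a1, a2, a3⟩ := hr.rep _ _ h1
    have hi := hr.lt a1
    refine .dneg B i m φ a1 a2 (ih _ f (hr.extend _ ?_ _ ?_))
    · intro m hm
      rw [List.mem_singleton.mp hm]
      exact ⟨rfl, by simpa using hi⟩
    · intro χ K hχ
      rcases hχ with h2 | h2
      · simp only [Prod.mk.injEq] at h2
        obtain ⟨rfl, rfl⟩ := h2
        exact Or.inr ⟨hr.lab _ _ h1, _, List.mem_cons_self, rfl, by simpa using a3⟩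
      · exact Or.inl h2
  | nand n Γ φ ψ L h1 _ _ ih1 ih2 =>
    intro B f hr
    obtain ⟨i, m, a1, a2, a3⟩ := hr.rep _ _ h1
    have hi := hr.lt a1
    refine .nand B i m φ ψ a1 a2 (ih1 _ f (hr.extend _ ?_ _ ?_)) (ih2 _ f (hr.extend _ ?_ _ ?_))
    · intro m hm
      rw [List.mem_singleton.mp hm]
      exact ⟨rfl, by simpa using hi⟩
    · intro χ K hχ
      rcases hχ with h2 | h2
      · simp only [Prod.mk.injEq] at h2
        obtain ⟨rfl, rfl⟩ := h2
        exact Or.inr ⟨hr.lab _ _ h1, _, List.mem_cons_self, rfl, by simpa using a3⟩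
      · exact Or.inl h2
    · intro m hm
      rw [List.mem_singleton.mp hm]
      exact ⟨rfl, by simpa using hi⟩
    · intro χ K hχ
      rcases hχ with h2 | h2
      · simp only [Prod.mk.injEq] at h2
        obtain ⟨rfl, rfl⟩ := h2
        exact Or.inr ⟨hr.lab _ _ h1, _, List.mem_cons_self, rfl, by simpa using a3⟩
      · exact Or.inl h2
  | or n Γ φ ψ L h1 _ _ ih1 ih2 =>
    intro B f hr
    obtain ⟨i, m, a1, a2, a3⟩ := hr.rep _ _ h1
    have hi := hr.lt a1
    refine .or B i m φ ψ a1 a2 (ih1 _ f (hr.extend _ ?_ _ ?_)) (ih2 _ f (hr.extend _ ?_ _ ?_))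
    · intro m hm
      rw [List.mem_singleton.mp hm]
      exact ⟨rfl, by simpa using hi⟩
    · intro χ K hχ
      rcases hχ with h2 | h2
      · simp only [Prod.mk.injEq] at h2
        obtain ⟨rfl, rfl⟩ := h2
        exact Or.inr ⟨hr.lab _ _ h1, _, List.mem_cons_self, rfl, by simpa using a3⟩
      · exact Or.inl h2
    · intro m hm
      rw [List.mem_singleton.mp hm]
      exact ⟨rfl, by simpa using hi⟩
    · intro χ K hχ
      rcases hχ with h2 | h2
      · simp only [Prod.mk.injEq] at h2
        obtain ⟨rfl, rfl⟩ := h2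
        exact Or.inr ⟨hr.lab _ _ h1, _, List.mem_cons_self, rfl, by simpa using a3⟩
      · exact Or.inl h2
  | mp n Γ φ ψ L L' h1 h2 _ ih =>
    intro B f hr
    obtain ⟨i, m, a1, a2, a3⟩ := hr.rep _ _ h1
    obtain ⟨j, m', b1, b2, b3⟩ := hr.rep _ _ h2
    have hi := hr.lt a1
    have hj := hr.lt b1
    refine .mp B i j m m' ψ a1 b1 (by rw [b2, a2]) (ih _ f (hr.extend _ ?_ _ ?_))
    · intro m hm
      rw [List.mem_singleton.mp hm]
      refine ⟨rfl, ?_⟩
      intro k hk
      simp only [List.mem_cons, List.not_mem_nil, or_false] at hk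
      rcases hk with rfl | rfl
      · exact hi
      · exact hj
    · intro χ K hχ
      rcases hχ with h3 | h3
      · simp only [Prod.mk.injEq] at h3
        obtain ⟨rfl, rfl⟩ := h3
        refine Or.inr ⟨?_, _, List.mem_cons_self, rfl, ?_⟩
        · rintro x (hx | hx)
          · exact hr.lab _ _ h1 x hx
          · exact hr.lab _ _ h2 x hx
        · intro c m' p hc hp
          have e1 := a3 c m' p hc hp
          have e2 := b3 c m' p hc hp
          simp [e1, e2]
      · exact Or.inl h3
  | counter n m Γ φ ψ L hnm h1 _ ih =>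
    intro B f hr
    obtain ⟨i, nd, a1, a2, a3⟩ := hr.rep _ _ h1
    have hi := hr.lt a1
    exact .counter B i nd φ ψ a1 a2
      (ih _ _ (hr.extend_counter m hnm i hi φ (.neg ψ) L a3 (hr.lab _ _ h1)))
  | recursive n Γ χ θ L h1 _ _ ih1 ih2 =>
    intro B f hr
    obtain ⟨i, m, a1, a2, a3⟩ := hr.rep _ _ h1
    have hi := hr.lt a1
    refine .recursive B i m θ trivial a1 ?_ (ih2 _ f (hr.extend _ ?_ _ ?_))
    · rw [a2]
      exact ih1 _ f (rep_root _ f)
    · intro m hm
      rw [List.mem_singleton.mp hm]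
      exact ⟨rfl, by simpa using hi⟩
    · intro χ K hχ
      rcases hχ with h2 | h2
      · simp only [Prod.mk.injEq] at h2
        obtain ⟨rfl, rfl⟩ := h2
        exact Or.inr ⟨hr.lab _ _ h1, _, List.mem_cons_self, rfl, by simpa using a3⟩
      · exact Or.inl h2

/-- formulae with a labelled tree are acceptable -/
theorem acceptable_of_ac {φ : Form} (h : Ac φ) : Acceptable φ :=
  closes_of_lc h _ (fun _ => (0, false)) (rep_root _ _)

end Pool.Agent.Q312.Mak
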