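import Pool.Agent.Q312.Mak.Alg

/-!
The omissibility property.
-/

namespace Pool.Agent.Q312.Mak

/-! ### The structure of the branches -/

/-- assignments of truth values to the nodes of a branch -/
def Str (B : List Node) (w : ℕ → Bool) : Prop :=
  ∀ (i : ℕ) (n : Node), B[i]? = some n → (0 < i → n.inputs ≠ []) ∧
    (∀ p, n.partner = some p → i ≠ p ∧ ∃ m : Node, B[p]? = some m ∧ m.partner = some i) ∧
    ∀ k ∈ n.inputs, k < i ∧ (n.partner = none → w i ≤ w k) ∧
      ∀ p, n.partner = some p → ∃ m : Node, B[p]? = some m ∧ k ∈ m.inputs ∧ w i ⊓ w p ≤ w k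

lemma Str.wf {B : List Node} {w : ℕ → Bool} (h : Str B w) : WF B :=
  fun i n hi j hj => ((h i n hi).2.2 j hj).1

lemma Str.extend {B : List Node} {w : ℕ → Bool} (h : Str B w)
    (C : List Node) (w' : ℕ → Bool) (hw : ∀ i < B.length, w' i = w i)
    (hC : ∀ (l : ℕ) (n : Node), C[l]? = some n → n.inputs ≠ [] ∧
      (∀ p, n.partner = some p → B.length + l ≠ p ∧
        ∃ m : Node, (B ++ C)[p]? = some m ∧ m.partner = some (B.length + l)) ∧
      ∀ k ∈ n.inputs, k < B.length ∧ (n.partner = none → w' (B.length + l) ≤ w k) ∧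
      ∀ p, n.partner = some p → ∃ m : Node, (B ++ C)[p]? = some m ∧ k ∈ m.inputs ∧
        w' (B.length + l) ⊓ w' p ≤ w k) : Str (B ++ C) w' := by
  intro i n hin
  by_cases hi : i < B.length
  · rw [List.getElem?_append_left hi] at hin
    obtain ⟨h2, h2', h3⟩ := h i n hin
    refine ⟨h2, ?_, ?_⟩
    · intro p hp
      obtain ⟨h4, m, h5, h6⟩ := h2' p hp
      have hpB : p < B.length := (List.getElem?_eq_some_iff.mp h5).1
      exact ⟨h4, m, by rw [List.getElem?_append_left hpB]; exact h5, h6⟩
    intro k hk
    obtain ⟨h4, h5, h6⟩ := h3 k hk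
    have hkB : k < B.length := h4.trans hi
    refine ⟨h4, by rw [hw i hi, hw k hkB]; exact h5, ?_⟩
    intro p hp
    obtain ⟨m, h7, h8, h9⟩ := h6 p hp
    have hpB : p < B.length := (List.getElem?_eq_some_iff.mp h7).1
    refine ⟨m, by rw [List.getElem?_append_left hpB]; exact h7, h8, ?_⟩
    rw [hw i hi, hw p hpB, hw k hkB]
    exact h9
  · have hi' : B.length ≤ i := not_lt.mp hi
    rw [List.getElem?_append_right hi'] at hin
    obtain ⟨h2, h2', h3⟩ := hC _ n hin
    have e : B.length + (i - B.length) = i := by omega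
    rw [e] at h2'
    refine ⟨fun _ => h2, h2', ?_⟩
    intro k hk
    obtain ⟨h4, h5, h6⟩ := h3 k hk
    rw [e] at h5
    refine ⟨lt_of_lt_of_le h4 hi', by rw [hw k h4]; exact h5, ?_⟩
    intro p hp
    obtain ⟨m, h7, h8, h9⟩ := h6 p hp
    rw [e] at h9
    exact ⟨m, h7, h8, by rw [hw k h4]; exact h9⟩

lemma Str.root {B : List Node} {w : ℕ → Bool} (h : Str B w) (i : ℕ) :
    i < B.length → InTrace B i 0 := by
  induction i using Nat.strong_induction_on with
  | _ i ih =>
    intro hi
    rcases Nat.eq_zero_or_pos i with rfl | hpos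
    · exact .self 0
    · obtain ⟨h2, -, h3⟩ := h i B[i] (List.getElem?_eq_getElem hi)
      obtain ⟨k, hk⟩ := List.exists_mem_of_ne_nil _ (h2 hpos)
      have h4 := (h3 k hk).1
      exact .step i k 0 _ (List.getElem?_eq_getElem hi) hk (ih k h4 (h4.trans hi))

lemma InTrace.tail' {B : List Node} {i k : ℕ} (h : InTrace B i k) :
    i = k ∨ ∃ (j : ℕ) (n : Node), InTrace B i j ∧ B[j]? = some n ∧ k ∈ n.inputs := by
  induction h with
  | self i => exact Or.inl rfl
  | step i j k n hn hj _ ih =>
    right
    rcases ih with rfl | ⟨l, m, h1, h2, h3⟩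
    · exact ⟨i, n, .self i, hn, hj⟩
    · exact ⟨l, m, .step i j l n hn hj h1, h2, h3⟩

lemma Str.parity {B : List Node} {w : ℕ → Bool} (h : Str B w) (i j : ℕ)
    (hi : i < B.length) (hp : Parity B i j) : w i ⊓ w j ≤ w 0 := by
  have key : ∀ d k, k + d = B.length → InTrace B i k ∨ InTrace B j k → w i ⊓ w j ≤ w k := by
    intro d
    induction d using Nat.strong_induction_on with
    | _ d ih =>
      intro k hk htr
      have hcase : i = k ∨ j = k ∨ ∃ (l : ℕ) (n : Node), (InTrace B i l ∨ InTrace B j l) ∧
          B[l]? = some n ∧ k ∈ n.inputs := by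
        rcases htr with h1 | h1
        · rcases h1.tail' with h2 | ⟨l, n, h2, h3, h4⟩
          · exact Or.inl h2
          · exact Or.inr (Or.inr ⟨l, n, Or.inl h2, h3, h4⟩)
        · rcases h1.tail' with h2 | ⟨l, n, h2, h3, h4⟩
          · exact Or.inr (Or.inl h2)
          · exact Or.inr (Or.inr ⟨l, n, Or.inr h2, h3, h4⟩)
      rcases hcase with rfl | rfl | ⟨l, n, h1, h2, h3⟩
      · exact inf_le_left
      · exact inf_le_right
      · have hl : l < B.length := (List.getElem?_eq_some_iff.mp h2).1
        obtain ⟨h4, h5, h6⟩ := (h l n h2).2.2 k h3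
        have h7 : w i ⊓ w j ≤ w l := ih (B.length - l) (by omega) l (by omega) h1
        rcases hpn : n.partner with _ | p
        · exact h7.trans (h5 hpn)
        · obtain ⟨m, h8, h9, h10⟩ := h6 p hpn
          have hpB : p < B.length := (List.getElem?_eq_some_iff.mp h8).1
          have h11 : k < p := ((h p m h8).2.2 k h9).1
          have h12 : w i ⊓ w j ≤ w p :=
            ih (B.length - p) (by omega) p (by omega) (hp l n p h2 hpn h1)
          exact (le_inf h7 h12).trans h10
  exact key B.length 0 (by omega) (Or.inl (h.root i hi))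

/-- extension of an assignment -/
def extb (w : ℕ → Bool) (n : ℕ) (x y : Bool) : ℕ → Bool :=
  fun j => if j < n then w j else if j = n then x else y

/-! ### Labels -/

/-- the name of the critical node `c` with the partner `p` -/
def nm (c p : ℕ) : ℕ × Bool := if c < p then (c, false) else (p, true)

/-- the label of a node -/
def lab (B : List Node) (i : ℕ) : Label :=
  {x | ∃ (c : ℕ) (m : Node) (p : ℕ), InTrace B i c ∧ B[c]? = some m ∧ m.partner = some p ∧
    x = nm c p}

lemma lab_old {B : List Node} (h : WF B) (C : List Node) {i : ℕ} (hi : i < B.length) :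
    lab (B ++ C) i = lab B i := by
  ext x
  constructor
  · rintro ⟨c, m, p, h1, h2, h3, h4⟩
    rw [inTrace_append_old h C hi] at h1
    have hc : c < B.length := (h.inTrace_le h1).trans_lt hi
    rw [List.getElem?_append_left hc] at h2
    exact ⟨c, m, p, h1, h2, h3, h4⟩
  · rintro ⟨c, m, p, h1, h2, h3, h4⟩
    have hc : c < B.length := (List.getElem?_eq_some_iff.mp h2).1
    exact ⟨c, m, p, (inTrace_append_old h C hi).mpr h1,
      by rw [List.getElem?_append_left hc]; exact h2, h3, h4⟩

lemma lab_new {B : List Node} (h : WF B) (C : List Node) {l : ℕ} {n : Node}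
    (hl : C[l]? = some n) (hn : ∀ j ∈ n.inputs, j < B.length) :
    lab (B ++ C) (B.length + l) = {x | (∃ p, n.partner = some p ∧ x = nm (B.length + l) p) ∨
      ∃ j ∈ n.inputs, x ∈ lab B j} := by
  have e : (B ++ C)[B.length + l]? = some n := by
    rw [List.getElem?_append_right (by omega)]
    simpa using hl
  ext x
  constructor
  · rintro ⟨c, m, p, h1, h2, h3, h4⟩
    rw [inTrace_append_new h C hl hn] at h1
    rcases h1 with rfl | ⟨j, hj, h1⟩
    · rw [e] at h2
      simp only [Option.some.injEq] at h2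
      subst h2
      exact Or.inl ⟨p, h3, h4⟩
    · have hc : c < B.length := (h.inTrace_le h1).trans_lt (hn j hj)
      rw [List.getElem?_append_left hc] at h2
      exact Or.inr ⟨j, hj, c, m, p, h1, h2, h3, h4⟩
  · rintro (⟨p, h1, h2⟩ | ⟨j, hj, c, m, p, h1, h2, h3, h4⟩)
    · exact ⟨_, n, p, .self _, e, h1, h2⟩
    · have hc : c < B.length := (List.getElem?_eq_some_iff.mp h2).1
      exact ⟨c, m, p, (inTrace_append_new h C hl hn).mpr (Or.inr ⟨j, hj, h1⟩),
        by rw [List.getElem?_append_left hc]; exact h2, h3, h4⟩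

lemma lab_single {B : List Node} (h : WF B) (φ : Form) (ks : List ℕ)
    (hk : ∀ j ∈ ks, j < B.length) (C : List Node) (l : ℕ)
    (hl : C[l]? = some ⟨φ, ks, none⟩) :
    lab (B ++ C) (B.length + l) = {x | ∃ j ∈ ks, x ∈ lab B j} := by
  rw [lab_new h C hl hk]
  simp

lemma lab_bal {B : List Node} {w : ℕ → Bool} (h : Str B w) (i j : ℕ) (hp : Parity B i j) :
    Bal (lab B i ∪ lab B j) := by
  intro k b hkb
  have h1 : ∃ (c : ℕ) (m : Node) (p : ℕ), (InTrace B i c ∨ InTrace B j c) ∧ B[c]? = some m ∧
      m.partner = some p ∧ (k, b) = nm c p := by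
    rcases hkb with ⟨c, m, p, h1, h2, h3, h4⟩ | ⟨c, m, p, h1, h2, h3, h4⟩
    · exact ⟨c, m, p, Or.inl h1, h2, h3, h4⟩
    · exact ⟨c, m, p, Or.inr h1, h2, h3, h4⟩
  obtain ⟨c, m, p, h1, h2, h3, h4⟩ := h1
  have h5 := hp c m p h2 h3 h1
  obtain ⟨h6, m', h7, h8⟩ := (h c m h2).2.1 p h3
  have h9 : (k, !b) = nm p c := by
    unfold nm at h4 ⊢
    rcases lt_or_gt_of_ne h6 with h10 | h10
    · rw [if_pos h10] at h4
      rw [if_neg (by omega)]
      simp only [Prod.mk.injEq] at h4 ⊢
      obtain ⟨rfl, rfl⟩ := h4
      simp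
    · rw [if_neg (by omega)] at h4
      rw [if_pos h10]
      simp only [Prod.mk.injEq] at h4 ⊢
      obtain ⟨rfl, rfl⟩ := h4
      simp
  rcases h5 with h5 | h5
  · exact Or.inl ⟨p, m', c, h5, h7, h8, h9⟩
  · exact Or.inr ⟨p, m', c, h5, h7, h8, h9⟩

/-! ### The translation -/

open Classical in
/-- the translation of the formulae, for the two truth values -/
noncomputable def tr (Q : Set ℕ) (T F : Form) : Bool → Form → Form
  | b, .letter p => if p ∈ Q then (if b = true then T else F) else .letter p
  | b, .neg φ => .neg (tr Q T F (!b) φ)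
  | b, .and φ ψ => .and (tr Q T F b φ) (tr Q T F b ψ)
  | b, .or φ ψ => .or (tr Q T F b φ) (tr Q T F b ψ)
  | true, .imp φ ψ => .and (.imp (tr Q T F false φ) (tr Q T F false ψ))
      (.imp (tr Q T F true φ) (tr Q T F true ψ))
  | false, .imp φ ψ => .imp (tr Q T F true φ) (tr Q T F false ψ)

lemma tr_mono (Q : Set ℕ) (T F : Form) (h : Ac (.imp F T)) (φ : Form) :
    Ac (.imp (tr Q T F false φ) (tr Q T F true φ)) := by
  induction φ with
  | letter p =>
    by_cases hp : p ∈ Q
    · simpa [tr, hp] using h
    · simpa [tr, hp] using le_refl' _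
  | neg φ ih => simpa [tr] using contra' ih
  | and φ ψ ih1 ih2 =>
    exact le_and (le_trans' (and_le_left _ _) ih1) (le_trans' (and_le_right _ _) ih2)
  | or φ ψ ih1 ih2 =>
    exact or_le (le_trans' ih1 (le_or_left _ _)) (le_trans' ih2 (le_or_right _ _))
  | imp φ ψ ih1 ih2 =>
    exact le_and (imp_mono ih1 (le_refl' _)) (imp_mono (le_refl' _) ih2)

/-- the translated nodes of a branch -/
def GG (Q : Set ℕ) (T F : Form) (B : List Node) (w : ℕ → Bool) : Set (Form × Label) :=
  {x | ∃ (i : ℕ) (m : Node), B[i]? = some m ∧ x = (tr Q T F (w i) m.form, lab B i)}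

lemma GG_extend {Q : Set ℕ} {T F : Form} {B : List Node} {w w' : ℕ → Bool} (h : WF B)
    (C : List Node) (hw : ∀ i < B.length, w' i = w i) (Γ : Set (Form × Label))
    (h1 : GG Q T F B w ⊆ Γ) (h2 : ∀ (l : ℕ) (m : Node), C[l]? = some m →
      (tr Q T F (w' (B.length + l)) m.form, lab (B ++ C) (B.length + l)) ∈ Γ) :
    GG Q T F (B ++ C) w' ⊆ Γ := by
  rintro x ⟨i, m, hi, rfl⟩
  by_cases hiB : i < B.length
  · rw [List.getElem?_append_left hiB] at hi
    rw [lab_old h C hiB, hw i hiB]
    exact h1 ⟨i, m, hi, rfl⟩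
  · have hiB' := not_lt.mp hiB
    rw [List.getElem?_append_right hiB'] at hi
    have := h2 _ m hi
    rwa [show B.length + (i - B.length) = i by omega] at this

lemma Str.extend_one {B : List Node} {w : ℕ → Bool} (h : Str B w)
    (φ : Form) (ks : List ℕ) (x : Bool) (h2 : ks ≠ [])
    (h3 : ∀ k ∈ ks, k < B.length ∧ x ≤ w k) :
    Str (B ++ [⟨φ, ks, none⟩]) (extb w B.length x x) := by
  refine h.extend _ _ (fun i hi => by simp [extb, hi]) ?_
  intro l n hl
  rcases l with _ | l
  · simp only [List.getElem?_cons_zero, Option.some.injEq] at hl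
    subst hl
    have e : extb w B.length x x (B.length + 0) = x := by simp [extb]
    rw [e]
    exact ⟨h2, by simp, fun k hk => ⟨(h3 k hk).1, fun _ => (h3 k hk).2, by simp⟩⟩
  · simp at hl

lemma Str.extend_two {B : List Node} {w : ℕ → Bool} (h : Str B w)
    (φ ψ : Form) (i : ℕ) (hi : i < B.length) :
    Str (B ++ [⟨φ, [i], none⟩, ⟨ψ, [i], none⟩]) (extb w B.length (w i) (w i)) := by
  refine h.extend _ _ (fun i hi => by simp [extb, hi]) ?_
  intro l n hl
  rcases l with _ | _ | l
  · simp only [List.getElem?_cons_zero, Option.some.injEq] at hl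
    subst hl
    have e : extb w B.length (w i) (w i) (B.length + 0) = w i := by simp [extb]
    rw [e]
    exact ⟨by simp, by simp, fun k hk => by
      rw [List.mem_singleton.mp hk]
      exact ⟨hi, fun _ => le_rfl, by simp⟩⟩
  · simp only [zero_add, List.getElem?_cons_succ, List.getElem?_cons_zero,
      Option.some.injEq] at hl
    subst hl
    have e : extb w B.length (w i) (w i) (B.length + (0 + 1)) = w i := by simp [extb]
    rw [e]
    exact ⟨by simp, by simp, fun k hk => by
      rw [List.mem_singleton.mp hk]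
      exact ⟨hi, fun _ => le_rfl, by simp⟩⟩
  · simp at hl

lemma Str.extend_counter {B : List Node} {w : ℕ → Bool} (h : Str B w)
    (φ ψ : Form) (i : ℕ) (hi : i < B.length) (x y : Bool) (h3 : x ⊓ y ≤ w i) :
    Str (B ++ [⟨φ, [i], some (B.length + 1)⟩, ⟨ψ, [i], some B.length⟩])
      (extb w B.length x y) := by
  have e1 : extb w B.length x y B.length = x := by simp [extb]
  have e2 : extb w B.length x y (B.length + 1) = y := by simp [extb]
  refine h.extend _ _ (fun i hi => by simp [extb, hi]) ?_
  intro l n hl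
  rcases l with _ | _ | l
  · simp only [List.getElem?_cons_zero, Option.some.injEq] at hl
    subst hl
    simp only [add_zero]
    rw [e1]
    refine ⟨by simp, ?_, fun k hk => ?_⟩
    · intro p hp
      simp only [Option.some.injEq] at hp
      subst hp
      refine ⟨by omega, ⟨ψ, [i], some B.length⟩, ?_, rfl⟩
      rw [List.getElem?_append_right (by omega)]
      simp
    rw [List.mem_singleton.mp hk]
    refine ⟨hi, by simp, ?_⟩
    intro p hp
    simp only [Option.some.injEq] at hp
    subst hp
    refine ⟨⟨ψ, [i], some B.length⟩, ?_, by simp, by rw [e2]; exact h3⟩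
    rw [List.getElem?_append_right (by omega)]
    simp
  · simp only [zero_add, List.getElem?_cons_succ, List.getElem?_cons_zero,
      Option.some.injEq] at hl
    subst hl
    simp only [zero_add]
    rw [e2]
    refine ⟨by simp, ?_, fun k hk => ?_⟩
    · intro p hp
      simp only [Option.some.injEq] at hp
      subst hp
      refine ⟨by omega, ⟨φ, [i], some (B.length + 1)⟩, ?_, rfl⟩
      rw [List.getElem?_append_right (by omega)]
      simp
    rw [List.mem_singleton.mp hk]
    refine ⟨hi, by simp, ?_⟩
    intro p hp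
    simp only [Option.some.injEq] at hp
    subst hp
    refine ⟨⟨φ, [i], some (B.length + 1)⟩, ?_, by simp, by rw [e1, inf_comm]; exact h3⟩
    rw [List.getElem?_append_right (by omega)]
    simp
  · simp at hl

/-- adding one non-critical node -/
lemma GG_one {Q : Set ℕ} {T F : Form} {B : List Node} {w : ℕ → Bool} (h : WF B)
    (φ : Form) (ks : List ℕ) (hk : ∀ j ∈ ks, j < B.length) (x : Bool) (L : Label)
    (hL : {y | ∃ j ∈ ks, y ∈ lab B j} = L) :
    GG Q T F (B ++ [⟨φ, ks, none⟩]) (extb w B.length x x) ⊆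
      insert (tr Q T F x φ, L) (GG Q T F B w) := by
  refine GG_extend h _ (fun i hi => by simp [extb, hi]) _ (Set.subset_insert _ _) ?_
  intro l m hl
  rcases l with _ | l
  · simp only [List.getElem?_cons_zero, Option.some.injEq] at hl
    subst hl
    rw [lab_single h φ ks hk _ 0 rfl, hL]
    left
    simp [extb]
  · simp at hl

/-- adding two non-critical nodes -/
lemma GG_two {Q : Set ℕ} {T F : Form} {B : List Node} {w : ℕ → Bool} (h : WF B)
    (φ ψ : Form) (i : ℕ) (hi : i < B.length) (x : Bool) :
    GG Q T F (B ++ [⟨φ, [i], none⟩, ⟨ψ, [i], none⟩]) (extb w B.length x x) ⊆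
      insert (tr Q T F x φ, lab B i) (insert (tr Q T F x ψ, lab B i) (GG Q T F B w)) := by
  refine GG_extend h _ (fun i hi => by simp [extb, hi]) _
    ((Set.subset_insert _ _).trans (Set.subset_insert _ _)) ?_
  intro l m hl
  rcases l with _ | _ | l
  · simp only [List.getElem?_cons_zero, Option.some.injEq] at hl
    subst hl
    rw [lab_single h φ [i] (by simpa using hi) _ 0 rfl]
    left
    simp [extb]
  · simp only [zero_add, List.getElem?_cons_succ, List.getElem?_cons_zero,
      Option.some.injEq] at hl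
    subst hl
    rw [lab_single h ψ [i] (by simpa using hi) _ (0 + 1) rfl]
    right; left
    simp [extb]
  · simp at hl

/-- adding two critical nodes -/
lemma GG_counter {Q : Set ℕ} {T F : Form} {B : List Node} {w : ℕ → Bool} (h : WF B)
    (φ ψ : Form) (i : ℕ) (hi : i < B.length) (x y : Bool) :
    GG Q T F (B ++ [⟨φ, [i], some (B.length + 1)⟩, ⟨ψ, [i], some B.length⟩])
      (extb w B.length x y) ⊆
      insert (tr Q T F x φ, insert (B.length, false) (lab B i))
        (insert (tr Q T F y ψ, insert (B.length, true) (lab B i)) (GG Q T F B w)) := by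
  refine GG_extend h _ (fun i hi => by simp [extb, hi]) _
    ((Set.subset_insert _ _).trans (Set.subset_insert _ _)) ?_
  intro l m hl
  rcases l with _ | _ | l
  · simp only [List.getElem?_cons_zero, Option.some.injEq] at hl
    subst hl
    have e := lab_new h [⟨φ, [i], some (B.length + 1)⟩, ⟨ψ, [i], some B.length⟩] (l := 0)
      (n := ⟨φ, [i], some (B.length + 1)⟩) rfl (by simpa using hi)
    rw [e]
    left
    have e2 : extb w B.length x y (B.length + 0) = x := by simp [extb]
    rw [e2]
    simp only [Prod.mk.injEq, true_and]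
    ext z
    simp [nm]
  · simp only [zero_add, List.getElem?_cons_succ, List.getElem?_cons_zero,
      Option.some.injEq] at hl
    subst hl
    have e := lab_new h [⟨φ, [i], some (B.length + 1)⟩, ⟨ψ, [i], some B.length⟩] (l := 1)
      (n := ⟨ψ, [i], some B.length⟩) rfl (by simpa using hi)
    rw [e]
    right; left
    have e2 : extb w B.length x y (B.length + 1) = y := by simp [extb]
    simp only [zero_add]
    rw [e2]
    simp only [Prod.mk.injEq, true_and]
    ext z
    simp [nm]
  · simp at hl

theorem translate (Q : Set ℕ) (T F : Form) (hFT : Ac (.imp F T)) (B : List Node)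
    (hcl : Closes Parity True B) (w : ℕ → Bool) (hs : Str B w) (h0 : w 0 = false) :
    LC B.length (GG Q T F B w) := by
  induction hcl generalizing w with
  | crash B i j n m hi hj hform hK =>
    have h1 : (tr Q T F (w i) n.form, lab B i) ∈ GG Q T F B w := ⟨i, n, hi, rfl⟩
    have h2 : (.neg (tr Q T F (!w j) n.form), lab B j) ∈ GG Q T F B w :=
      ⟨j, m, hj, by rw [hform]; rfl⟩
    have h3 := hs.parity i j (List.getElem?_eq_some_iff.mp hi).1 hK
    rw [h0] at h3
    have hb := lab_bal hs i j hK
    rcases hwi : w i with _ | _ <;> rcases hwj : w j with _ | _ <;>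
      rw [hwi] at h1 h3 <;> rw [hwj] at h2 h3
    · refine .recursive _ _ _ _ _ h1 (tr_mono Q T F hFT n.form) ?_
      exact .crash _ _ _ _ _ (Set.mem_insert _ _) (Set.mem_insert_of_mem _ h2) hb
    · exact .crash _ _ _ _ _ h1 h2 hb
    · exact .crash _ _ _ _ _ h1 h2 hb
    · exact absurd h3 (by simp)
  | and B i n φ ψ hi hform _ ih =>
    have hiB := (List.getElem?_eq_some_iff.mp hi).1
    have h1 : (tr Q T F (w i) n.form, lab B i) ∈ GG Q T F B w := ⟨i, n, hi, rfl⟩
    rw [hform] at h1
    refine .and _ _ _ _ _ h1 ((ih _ (hs.extend_two φ ψ i hiB) ?_).weaken (by simp)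
      (GG_two hs.wf φ ψ i hiB (w i)))
    have : 0 < B.length := by omega
    simp [extb, this, h0]
  | nor B i n φ ψ hi hform _ ih =>
    have hiB := (List.getElem?_eq_some_iff.mp hi).1
    have h1 : (tr Q T F (w i) n.form, lab B i) ∈ GG Q T F B w := ⟨i, n, hi, rfl⟩
    rw [hform] at h1
    refine .nor _ _ _ _ _ h1 ((ih _ (hs.extend_two (.neg φ) (.neg ψ) i hiB) ?_).weaken (by simp)
      (GG_two hs.wf (.neg φ) (.neg ψ) i hiB (w i)))
    have : 0 < B.length := by omega
    simp [extb, this, h0]
  | dneg B i n φ hi hform _ ih =>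
    have hiB := (List.getElem?_eq_some_iff.mp hi).1
    have h1 : (tr Q T F (w i) n.form, lab B i) ∈ GG Q T F B w := ⟨i, n, hi, rfl⟩
    rw [hform] at h1
    simp only [tr, Bool.not_not] at h1
    refine .dneg _ _ _ _ h1 ((ih _ (hs.extend_one φ [i] (w i) (by simp)
      (by simpa using hiB)) ?_).weaken (by simp)
      (GG_one hs.wf φ [i] (by simpa using hiB) (w i) _ (by simp)))
    have : 0 < B.length := by omega
    simp [extb, this, h0]
  | nand B i n φ ψ hi hform _ _ ih1 ih2 =>
    have hiB := (List.getElem?_eq_some_iff.mp hi).1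
    have h1 : (tr Q T F (w i) n.form, lab B i) ∈ GG Q T F B w := ⟨i, n, hi, rfl⟩
    rw [hform] at h1
    have h2 : 0 < B.length := by omega
    refine .nand _ _ _ _ _ h1 ((ih1 _ (hs.extend_one (.neg φ) [i] (w i) (by simp)
      (by simpa using hiB)) (by simp [extb, h2, h0])).weaken (by simp)
      (GG_one hs.wf (.neg φ) [i] (by simpa using hiB) (w i) _ (by simp)))
      ((ih2 _ (hs.extend_one (.neg ψ) [i] (w i) (by simp)
      (by simpa using hiB)) (by simp [extb, h2, h0])).weaken (by simp)
      (GG_one hs.wf (.neg ψ) [i] (by simpa using hiB) (w i) _ (by simp)))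
  | or B i n φ ψ hi hform _ _ ih1 ih2 =>
    have hiB := (List.getElem?_eq_some_iff.mp hi).1
    have h1 : (tr Q T F (w i) n.form, lab B i) ∈ GG Q T F B w := ⟨i, n, hi, rfl⟩
    rw [hform] at h1
    have h2 : 0 < B.length := by omega
    refine .or _ _ _ _ _ h1 ((ih1 _ (hs.extend_one φ [i] (w i) (by simp)
      (by simpa using hiB)) (by simp [extb, h2, h0])).weaken (by simp)
      (GG_one hs.wf φ [i] (by simpa using hiB) (w i) _ (by simp)))
      ((ih2 _ (hs.extend_one ψ [i] (w i) (by simp)
      (by simpa using hiB)) (by simp [extb, h2, h0])).weaken (by simp)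
      (GG_one hs.wf ψ [i] (by simpa using hiB) (w i) _ (by simp)))
  | mp B i j n m ψ hi hj hform _ ih =>
    have hiB := (List.getElem?_eq_some_iff.mp hi).1
    have hjB := (List.getElem?_eq_some_iff.mp hj).1
    have h1 : (tr Q T F (w i) n.form, lab B i) ∈ GG Q T F B w := ⟨i, n, hi, rfl⟩
    have h2 : (tr Q T F (w j) m.form, lab B j) ∈ GG Q T F B w := ⟨j, m, hj, rfl⟩
    rw [hform] at h2
    have h3 : 0 < B.length := by omega
    have hk : ∀ k ∈ [i, j], k < B.length := by simp [hiB, hjB]
    have hL : {y | ∃ k ∈ [i, j], y ∈ lab B k} = lab B i ∪ lab B j := by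
      ext y; simp
    have key : ∀ x : Bool, x ≤ w i → x ≤ w j →
        LC B.length (insert (tr Q T F x ψ, lab B i ∪ lab B j) (GG Q T F B w)) := by
      intro x hx1 hx2
      refine (ih _ (hs.extend_one ψ [i, j] x (by simp) ?_) (by simp [extb, h3, h0])).weaken
        (by simp) (GG_one hs.wf ψ [i, j] hk x _ hL)
      intro k hk
      simp only [List.mem_cons, List.not_mem_nil, or_false] at hk
      rcases hk with rfl | rfl
      · exact ⟨hiB, hx1⟩
      · exact ⟨hjB, hx2⟩
    rcases hwj : w j with _ | _
    · rw [hwj] at h2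
      have h4 := key false (Bool.false_le _) (Bool.false_le _)
      rcases hwi : w i with _ | _
      · rw [hwi] at h1
        refine .recursive _ _ _ _ _ h1 (tr_mono Q T F hFT n.form) ?_
        refine .mp _ _ _ _ _ _ (Set.mem_insert _ _) (Set.mem_insert_of_mem _ h2) ?_
        exact h4.weaken le_rfl (Set.insert_subset_insert (Set.subset_insert _ _))
      · rw [hwi] at h1
        exact .mp _ _ _ _ _ _ h1 h2 h4
    · rw [hwj] at h2
      have h4 := key (w i) le_rfl (by rw [hwj]; exact Bool.le_true _)
      refine .and _ _ _ _ _ h2 ?_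
      rcases hwi : w i with _ | _
      · rw [hwi] at h1 h4
        refine .mp _ _ _ _ _ _ (Set.mem_insert_of_mem _ (Set.mem_insert_of_mem _ h1))
          (Set.mem_insert _ _) ?_
        exact h4.weaken le_rfl (Set.insert_subset_insert
          ((Set.subset_insert _ _).trans (Set.subset_insert _ _)))
      · rw [hwi] at h1 h4
        refine .mp _ _ _ _ _ _ (Set.mem_insert_of_mem _ (Set.mem_insert_of_mem _ h1))
          (Set.mem_insert_of_mem _ (Set.mem_insert _ _)) ?_
        exact h4.weaken le_rfl (Set.insert_subset_insert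
          ((Set.subset_insert _ _).trans (Set.subset_insert _ _)))
  | counter B i n φ ψ hi hform _ ih =>
    have hiB := (List.getElem?_eq_some_iff.mp hi).1
    have h1 : (tr Q T F (w i) n.form, lab B i) ∈ GG Q T F B w := ⟨i, n, hi, rfl⟩
    rw [hform] at h1
    have h3 : 0 < B.length := by omega
    have key : ∀ x y : Bool, x ⊓ y ≤ w i → ∀ Γ, GG Q T F B w ⊆ Γ →
        LC (B.length + 1) (insert (tr Q T F x φ, insert (B.length, false) (lab B i))
        (insert (tr Q T F y (.neg ψ), insert (B.length, true) (lab B i)) Γ)) := by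
      intro x y hxy Γ hΓ
      exact (ih _ (hs.extend_counter φ (.neg ψ) i hiB x y hxy) (by simp [extb, h3, h0])).weaken
        (by simp) ((GG_counter hs.wf φ (.neg ψ) i hiB x y).trans
          (Set.insert_subset_insert (Set.insert_subset_insert hΓ)))
    rcases hwi : w i with _ | _
    · rw [hwi] at h1 key
      refine .nand _ _ _ _ _ h1 ?_ ?_
      · refine .counter _ B.length _ _ _ _ le_rfl (Set.mem_insert _ _) ?_
        exact key false true (by simp) _ (Set.subset_insert _ _)
      · refine .counter _ B.length _ _ _ _ le_rfl (Set.mem_insert _ _) ?_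
        exact key true false (by simp) _ (Set.subset_insert _ _)
    · rw [hwi] at h1 key
      refine .counter _ B.length _ _ _ _ le_rfl h1 ?_
      exact key true true (by simp) _ subset_rfl
  | recursive B i n θ _ hi _ _ ih1 ih2 =>
    have hiB := (List.getElem?_eq_some_iff.mp hi).1
    have h1 : (tr Q T F (w i) n.form, lab B i) ∈ GG Q T F B w := ⟨i, n, hi, rfl⟩
    have h3 : 0 < B.length := by omega
    have h4 : Ac (tr Q T F true (.imp n.form θ)) := by
      refine (ih1 (fun _ => false) ?_ rfl).weaken (Nat.zero_le _) ?_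
      · intro i m hi
        rcases i with _ | i
        · simp only [List.getElem?_cons_zero, Option.some.injEq] at hi
          subst hi
          exact ⟨fun h => absurd h (lt_irrefl 0), by simp, by simp⟩
        · simp at hi
      · rintro x ⟨i, m, hi, rfl⟩
        rcases i with _ | i
        · simp only [List.getElem?_cons_zero, Option.some.injEq] at hi
          subst hi
          simp only [Set.mem_singleton_iff, Prod.mk.injEq]
          refine ⟨rfl, ?_⟩
          ext y
          simp only [lab, Set.mem_empty_iff_false, iff_false]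
          rintro ⟨c, m, p, -, hc, hp, -⟩
          rcases c with _ | c
          · simp only [List.getElem?_cons_zero, Option.some.injEq] at hc
            subst hc
            simp at hp
          · simp at hc
        · simp at hi
    have h5 : Ac (.imp (tr Q T F (w i) n.form) (tr Q T F (w i) θ)) := by
      rcases w i with _ | _
      · exact det h4 (and_le_left _ _)
      · exact det h4 (and_le_right _ _)
    refine .recursive _ _ _ _ _ h1 h5 ?_
    exact (ih2 _ (hs.extend_one θ [i] (w i) (by simp)
      (by simpa using hiB)) (by simp [extb, h3, h0])).weaken (by simp)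
      (GG_one hs.wf θ [i] (by simpa using hiB) (w i) _ (by simp))

/-- the translation of acceptable formulae -/
theorem ac_tr (Q : Set ℕ) (T F : Form) (hFT : Ac (.imp F T)) (φ : Form) (h : Acceptable φ) :
    Ac (tr Q T F true φ) := by
  refine (translate Q T F hFT _ h (fun _ => false) ?_ rfl).weaken (Nat.zero_le _) ?_
  · intro i m hi
    rcases i with _ | i
    · simp only [List.getElem?_cons_zero, Option.some.injEq] at hi
      subst hi
      exact ⟨fun h => absurd h (lt_irrefl 0), by simp, by simp⟩
    · simp at hi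
  · rintro x ⟨i, m, hi, rfl⟩
    rcases i with _ | i
    · simp only [List.getElem?_cons_zero, Option.some.injEq] at hi
      subst hi
      simp only [Set.mem_singleton_iff, Prod.mk.injEq]
      refine ⟨rfl, ?_⟩
      ext y
      simp only [lab, Set.mem_empty_iff_false, iff_false]
      rintro ⟨c, m, p, -, hc, hp, -⟩
      rcases c with _ | c
      · simp only [List.getElem?_cons_zero, Option.some.injEq] at hc
        subst hc
        simp at hp
      · simp at hc
    · simp at hi

/-! ### Omissibility -/

/-- formulae without letters in `Q` are equivalent to their translations -/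
lemma tr_old (Q : Set ℕ) (T F : Form) (φ : Form) (hφ : Disjoint φ.letters Q) (b : Bool) :
    Ac (.imp φ (tr Q T F b φ)) ∧ Ac (.imp (tr Q T F b φ) φ) := by
  induction φ generalizing b with
  | letter p =>
    have hp : p ∉ Q := Set.disjoint_left.mp hφ rfl
    simp only [tr, hp, if_false]
    exact ⟨le_refl' _, le_refl' _⟩
  | neg φ ih => exact ⟨contra' (ih hφ (!b)).2, contra' (ih hφ (!b)).1⟩
  | and φ ψ ih1 ih2 =>
    rw [Form.letters, Set.disjoint_union_left] at hφ
    obtain ⟨h1, h2⟩ := ih1 hφ.1 b
    obtain ⟨h3, h4⟩ := ih2 hφ.2 b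
    exact ⟨le_and (le_trans' (and_le_left _ _) h1) (le_trans' (and_le_right _ _) h3),
      le_and (le_trans' (and_le_left _ _) h2) (le_trans' (and_le_right _ _) h4)⟩
  | or φ ψ ih1 ih2 =>
    rw [Form.letters, Set.disjoint_union_left] at hφ
    obtain ⟨h1, h2⟩ := ih1 hφ.1 b
    obtain ⟨h3, h4⟩ := ih2 hφ.2 b
    exact ⟨or_le (le_trans' h1 (le_or_left _ _)) (le_trans' h3 (le_or_right _ _)),
      or_le (le_trans' h2 (le_or_left _ _)) (le_trans' h4 (le_or_right _ _))⟩
  | imp φ ψ ih1 ih2 =>
    rw [Form.letters, Set.disjoint_union_left] at hφ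
    have h1 := ih1 hφ.1
    have h2 := ih2 hφ.2
    rcases b with _ | _
    · exact ⟨imp_mono (h1 true).2 (h2 false).1, imp_mono (h1 true).1 (h2 false).2⟩
    · exact ⟨le_and (imp_mono (h1 false).2 (h2 false).1) (imp_mono (h1 true).2 (h2 true).1),
        le_trans' (and_le_left _ _) (imp_mono (h1 false).1 (h2 false).2)⟩

lemma letters_tr (Q P : Set ℕ) (T F : Form) (hT : T.letters ⊆ P) (hF : F.letters ⊆ P)
    (φ : Form) (hφ : φ.letters ⊆ Q) (b : Bool) : (tr Q T F b φ).letters ⊆ P := by
  induction φ generalizing b with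
  | letter p =>
    have hp : p ∈ Q := hφ rfl
    rcases b with _ | _ <;> simpa [tr, hp]
  | neg φ ih => exact ih hφ _
  | and φ ψ ih1 ih2 =>
    exact Set.union_subset (ih1 (Set.subset_union_left.trans hφ) b)
      (ih2 (Set.subset_union_right.trans hφ) b)
  | or φ ψ ih1 ih2 =>
    exact Set.union_subset (ih1 (Set.subset_union_left.trans hφ) b)
      (ih2 (Set.subset_union_right.trans hφ) b)
  | imp φ ψ ih1 ih2 =>
    have h1 := ih1 (Set.subset_union_left.trans hφ)
    have h2 := ih2 (Set.subset_union_right.trans hφ)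
    rcases b with _ | _
    · exact Set.union_subset (h1 true) (h2 false)
    · exact Set.union_subset (Set.union_subset (h1 false) (h2 false))
        (Set.union_subset (h1 true) (h2 true))

/-- the translations of the formulae with letters in `Q` are extreme -/
lemma tr_new {P : Set ℕ} {t c : Form} (hB : Bounds P t c) (Q : Set ℕ) (φ : Form)
    (hφ : φ.letters ⊆ Q) : Ac (.imp (TT c) (tr Q (TT c) (FF c) true φ)) ∧
      Ac (.imp (tr Q (TT c) (FF c) false φ) (FF c)) := by
  have hT : (TT c).letters ⊆ P := by rw [letters_TT]; exact hB.cP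
  have hF : (FF c).letters ⊆ P := by rw [letters_FF]; exact hB.cP
  induction φ with
  | letter p =>
    have hp : p ∈ Q := hφ rfl
    simp only [tr, hp, if_true]
    exact ⟨le_refl' _, le_refl' _⟩
  | neg φ ih =>
    obtain ⟨h1, h2⟩ := ih hφ
    exact ⟨le_trans' (dn1 _) (contra' h2), contra' h1⟩
  | and φ ψ ih1 ih2 =>
    obtain ⟨h1, h2⟩ := ih1 (Set.subset_union_left.trans hφ)
    obtain ⟨h3, h4⟩ := ih2 (Set.subset_union_right.trans hφ)
    exact ⟨le_and h1 h3, le_trans' (and_le_left _ _) h2⟩
  | or φ ψ ih1 ih2 =>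
    obtain ⟨h1, h2⟩ := ih1 (Set.subset_union_left.trans hφ)
    obtain ⟨h3, h4⟩ := ih2 (Set.subset_union_right.trans hφ)
    exact ⟨le_trans' h1 (le_or_left _ _), or_le h2 h4⟩
  | imp φ ψ ih1 ih2 =>
    have hφ1 : φ.letters ⊆ Q := Set.subset_union_left.trans hφ
    have hψ1 : ψ.letters ⊆ Q := Set.subset_union_right.trans hφ
    obtain ⟨h1, h2⟩ := ih1 hφ1
    obtain ⟨h3, h4⟩ := ih2 hψ1
    have h5 := hB.bound _ (letters_tr Q P _ _ hT hF φ hφ1 true)
    have h6 := hB.bound _ (letters_tr Q P _ _ hT hF ψ hψ1 false)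
    constructor
    · refine le_and ?_ ?_
      · exact le_trans' (res1 (le_trans' (fus_comm _ _) hB.fus_T_F)) (imp_mono h2 h6.1)
      · have h7 : Ac (.imp (fus (TT c) (TT c)) (TT c)) := by
          refine (hB.bound _ ?_).2
          simp only [Form.letters, Set.union_self]
          exact hB.cP
        exact le_trans' (res1 h7) (imp_mono h5.2 h3)
    · have h8 : Ac (TT c) := det hB.ac (hB.bound t hB.tP).2
      have h9 : Ac (.imp (.imp (TT c) (FF c)) (FF c)) :=
        det h8 (res1 (le_trans' (fus_comm _ _) (res2 (le_refl' _))))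
      exact le_trans' (imp_mono h1 h4) h9

lemma finite_letters (φ : Form) : φ.letters.Finite := by
  induction φ with
  | letter p => exact Set.finite_singleton p
  | neg φ ih => exact ih
  | and φ ψ ih1 ih2 => exact ih1.union ih2
  | or φ ψ ih1 ih2 => exact ih1.union ih2
  | imp φ ψ ih1 ih2 => exact ih1.union ih2

lemma nonempty_letters (φ : Form) : φ.letters.Nonempty := by
  induction φ with
  | letter p => exact Set.singleton_nonempty p
  | neg φ ih => exact ih
  | and φ ψ ih1 _ => exact ih1.mono Set.subset_union_left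
  | or φ ψ ih1 _ => exact ih1.mono Set.subset_union_left
  | imp φ ψ ih1 _ => exact ih1.mono Set.subset_union_left

theorem omit_ac (α β γ : Form) (h1 : Disjoint β.letters α.letters)
    (h2 : Disjoint β.letters γ.letters)
    (h : Acceptable (.imp (.and α β) γ) ∨ Acceptable (.imp α (.or β γ))) :
    Acceptable (.imp α γ) := by
  obtain ⟨t, c, hB⟩ := exists_bounds (α.letters ∪ γ.letters)
    ((finite_letters α).union (finite_letters γ))
    ((nonempty_letters α).mono Set.subset_union_left)
  have hT : (TT c).letters ⊆ α.letters ∪ γ.letters := by rw [letters_TT]; exact hB.cP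
  have hFT : Ac (.imp (FF c) (TT c)) := (hB.bound _ hT).1
  obtain ⟨b1, b2⟩ := tr_new hB β.letters β subset_rfl
  have hα := tr_old β.letters (TT c) (FF c) α h1.symm
  have hγ := tr_old β.letters (TT c) (FF c) γ h2.symm
  apply acceptable_of_ac
  rcases h with h | h
  · have h3 := det (ac_tr β.letters (TT c) (FF c) hFT _ h) (and_le_right _ _)
    refine le_trans' (le_and (hα true).1
      (le_trans' (hB.bound α Set.subset_union_left).2 b1)) (le_trans' h3 (hγ true).2)
  · have h3 := det (ac_tr β.letters (TT c) (FF c) hFT _ h) (and_le_left _ _)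
    refine le_trans' (hα false).1 (le_trans' h3 (or_le
      (le_trans' b2 (hB.bound γ Set.subset_union_right).1) (hγ false).2))

end Pool.Agent.Q312.Mak
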