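import Pool.Agent.Q312.Mak.Basic

/-!
Soundness of the truth-trees with parity for the models over Boolean algebras.
-/

namespace Pool.Agent.Q312.Mak

variable {W : Type} [BooleanAlgebra W]

/-- truth of formulae at the elements of a Boolean algebra -/
def sat (V : ℕ → W → Prop) : Form → W → Prop
  | .letter p, x => V p x
  | .neg φ, x => ¬ sat V φ xᶜ
  | .and φ ψ, x => sat V φ x ∧ sat V ψ x
  | .or φ ψ, x => sat V φ x ∨ sat V ψ x
  | .imp φ ψ, x => ∀ y, sat V φ y → sat V ψ (x ⊓ y)

lemma sat_mono {V : ℕ → W → Prop} (hV : ∀ p x y, x ≤ y → V p x → V p y) (φ : Form) :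
    ∀ x y, x ≤ y → sat V φ x → sat V φ y := by
  induction φ with
  | letter p => exact hV p
  | neg φ ih => exact fun x y h h1 h2 => h1 (ih _ _ (compl_le_compl h) h2)
  | and φ ψ ih1 ih2 => exact fun x y h h1 => ⟨ih1 x y h h1.1, ih2 x y h h1.2⟩
  | or φ ψ ih1 ih2 => exact fun x y h h1 => h1.imp (ih1 x y h) (ih2 x y h)
  | imp φ ψ ih1 ih2 =>
    exact fun x y h h1 z hz => ih2 _ _ (inf_le_inf_right z h) (h1 z hz)

/-- assignments of elements of the Boolean algebra to the nodes of a branch -/
def Good (V : ℕ → W → Prop) (B : List Node) (w : ℕ → W) : Prop :=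
  ∀ i n, B[i]? = some n → sat V n.form (w i) ∧ (0 < i → n.inputs ≠ []) ∧
    ∀ k ∈ n.inputs, k < i ∧ (n.partner = none → w i ≤ w k) ∧
      ∀ p, n.partner = some p → ∃ m, B[p]? = some m ∧ k ∈ m.inputs ∧ w i ⊓ w p ≤ w k

lemma Good.extend {V : ℕ → W → Prop} {B : List Node} {w : ℕ → W} (h : Good V B w)
    (C : List Node) (w' : ℕ → W) (hw : ∀ i < B.length, w' i = w i)
    (hC : ∀ l n, C[l]? = some n → sat V n.form (w' (B.length + l)) ∧ n.inputs ≠ [] ∧
      ∀ k ∈ n.inputs, k < B.length ∧ (n.partner = none → w' (B.length + l) ≤ w k) ∧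
      ∀ p, n.partner = some p → ∃ m, (B ++ C)[p]? = some m ∧ k ∈ m.inputs ∧
        w' (B.length + l) ⊓ w' p ≤ w k) : Good V (B ++ C) w' := by
  intro i n hin
  by_cases hi : i < B.length
  · rw [List.getElem?_append_left hi] at hin
    obtain ⟨h1, h2, h3⟩ := h i n hin
    refine ⟨by rw [hw i hi]; exact h1, h2, ?_⟩
    intro k hk
    obtain ⟨h4, h5, h6⟩ := h3 k hk
    have hkB : k < B.length := h4.trans hi
    refine ⟨h4, by rw [hw i hi, hw k hkB]; exact h5, ?_⟩
    intro p hp
    obtain ⟨m, h7, h8, h9⟩ := h6 p hp
    have hpB : p < B.length := by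
      rw [List.getElem?_eq_some_iff] at h7
      exact h7.1
    refine ⟨m, by rw [List.getElem?_append_left hpB]; exact h7, h8, ?_⟩
    rw [hw i hi, hw p hpB, hw k hkB]
    exact h9
  · have hi' : B.length ≤ i := not_lt.mp hi
    rw [List.getElem?_append_right hi'] at hin
    obtain ⟨h1, h2, h3⟩ := hC _ n hin
    have e : B.length + (i - B.length) = i := by omega
    rw [e] at h1
    refine ⟨h1, fun _ => h2, ?_⟩
    intro k hk
    obtain ⟨h4, h5, h6⟩ := h3 k hk
    rw [e] at h5
    refine ⟨lt_of_lt_of_le h4 hi', by rw [hw k h4]; exact h5, ?_⟩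
    intro p hp
    obtain ⟨m, h7, h8, h9⟩ := h6 p hp
    rw [e] at h9
    exact ⟨m, h7, h8, by rw [hw k h4]; exact h9⟩

/-- the root belongs to all traces -/
lemma Good.root {V : ℕ → W → Prop} {B : List Node} {w : ℕ → W} (h : Good V B w) (i : ℕ) :
    i < B.length → InTrace B i 0 := by
  induction i using Nat.strong_induction_on with
  | _ i ih =>
    intro hi
    rcases Nat.eq_zero_or_pos i with rfl | hpos
    · exact .self 0
    · obtain ⟨-, h2, h3⟩ := h i B[i] (List.getElem?_eq_getElem hi)
      obtain ⟨k, hk⟩ := List.exists_mem_of_ne_nil _ (h2 hpos)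
      have h4 := (h3 k hk).1
      exact .step i k 0 _ (List.getElem?_eq_getElem hi) hk (ih k h4 (h4.trans hi))

lemma InTrace.tail {B : List Node} {i k : ℕ} (h : InTrace B i k) :
    i = k ∨ ∃ j n, InTrace B i j ∧ B[j]? = some n ∧ k ∈ n.inputs := by
  induction h with
  | self i => exact Or.inl rfl
  | step i j k n hn hj _ ih =>
    right
    rcases ih with rfl | ⟨l, m, h1, h2, h3⟩
    · exact ⟨i, n, .self i, hn, hj⟩
    · exact ⟨l, m, .step i j l n hn hj h1, h2, h3⟩

/-- the element of a pair of nodes with parity lies below that of the root -/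
lemma Good.parity {V : ℕ → W → Prop} {B : List Node} {w : ℕ → W} (h : Good V B w) (i j : ℕ)
    (hi : i < B.length) (hp : Parity B i j) : w i ⊓ w j ≤ w 0 := by
  have key : ∀ d k, k + d = B.length → InTrace B i k ∨ InTrace B j k → w i ⊓ w j ≤ w k := by
    intro d
    induction d using Nat.strong_induction_on with
    | _ d ih =>
      intro k hk htr
      have hcase : i = k ∨ j = k ∨ ∃ l n, (InTrace B i l ∨ InTrace B j l) ∧ B[l]? = some n ∧
          k ∈ n.inputs := by
        rcases htr with h1 | h1
        · rcases h1.tail with h2 | ⟨l, n, h2, h3, h4⟩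
          · exact Or.inl h2
          · exact Or.inr (Or.inr ⟨l, n, Or.inl h2, h3, h4⟩)
        · rcases h1.tail with h2 | ⟨l, n, h2, h3, h4⟩
          · exact Or.inr (Or.inl h2)
          · exact Or.inr (Or.inr ⟨l, n, Or.inr h2, h3, h4⟩)
      rcases hcase with rfl | rfl | ⟨l, n, h1, h2, h3⟩
      · exact inf_le_left
      · exact inf_le_right
      · have hl : l < B.length := (List.getElem?_eq_some_iff.mp h2).1
        obtain ⟨h4, h5, h6⟩ := (h l n h2).2.2 k h3
        have h7 : w i ⊓ w j ≤ w l := ih (B.length - l) (by omega) l (by omega) h1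
        rcases hpn : n.partner with _ | p
        · exact h7.trans (h5 hpn)
        · obtain ⟨m, h8, h9, h10⟩ := h6 p hpn
          have hpB : p < B.length := (List.getElem?_eq_some_iff.mp h8).1
          have h11 : k < p := ((h p m h8).2.2 k h9).1
          have h12 : w i ⊓ w j ≤ w p :=
            ih (B.length - p) (by omega) p (by omega) (hp l n p h2 hpn h1)
          exact (le_inf h7 h12).trans h10
  exact key B.length 0 (by omega) (Or.inl (h.root i hi))

/-- extension of an assignment -/
def extw (w : ℕ → W) (n : ℕ) (x y : W) : ℕ → W :=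
  fun j => if j < n then w j else if j = n then x else y

lemma Good.extend_one {V : ℕ → W → Prop} {B : List Node} {w : ℕ → W} (h : Good V B w)
    (φ : Form) (ks : List ℕ) (x : W) (h1 : sat V φ x) (h2 : ks ≠ [])
    (h3 : ∀ k ∈ ks, k < B.length ∧ x ≤ w k) :
    Good V (B ++ [⟨φ, ks, none⟩]) (extw w B.length x x) := by
  refine h.extend _ _ (fun i hi => by simp [extw, hi]) ?_
  intro l n hl
  rcases l with _ | l
  · simp only [List.getElem?_cons_zero, Option.some.injEq] at hl
    subst hl
    have e : extw w B.length x x (B.length + 0) = x := by simp [extw]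
    rw [e]
    exact ⟨h1, h2, fun k hk => ⟨(h3 k hk).1, fun _ => (h3 k hk).2, by simp⟩⟩
  · simp at hl

lemma Good.extend_two {V : ℕ → W → Prop} {B : List Node} {w : ℕ → W} (h : Good V B w)
    (φ ψ : Form) (i : ℕ) (hi : i < B.length) (h1 : sat V φ (w i)) (h2 : sat V ψ (w i)) :
    Good V (B ++ [⟨φ, [i], none⟩, ⟨ψ, [i], none⟩]) (extw w B.length (w i) (w i)) := by
  refine h.extend _ _ (fun i hi => by simp [extw, hi]) ?_
  intro l n hl
  rcases l with _ | _ | l
  · simp only [List.getElem?_cons_zero, Option.some.injEq] at hl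
    subst hl
    have e : extw w B.length (w i) (w i) (B.length + 0) = w i := by simp [extw]
    rw [e]
    exact ⟨h1, by simp, fun k hk => by
      rw [List.mem_singleton.mp hk]
      exact ⟨hi, fun _ => le_rfl, by simp⟩⟩
  · simp only [zero_add, List.getElem?_cons_succ, List.getElem?_cons_zero,
      Option.some.injEq] at hl
    subst hl
    have e : extw w B.length (w i) (w i) (B.length + (0 + 1)) = w i := by simp [extw]
    rw [e]
    exact ⟨h2, by simp, fun k hk => by
      rw [List.mem_singleton.mp hk]
      exact ⟨hi, fun _ => le_rfl, by simp⟩⟩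
  · simp at hl

lemma Good.extend_counter {V : ℕ → W → Prop} {B : List Node} {w : ℕ → W} (h : Good V B w)
    (φ ψ : Form) (i : ℕ) (hi : i < B.length) (x y : W) (h1 : sat V φ x) (h2 : sat V ψ y)
    (h3 : x ⊓ y ≤ w i) :
    Good V (B ++ [⟨φ, [i], some (B.length + 1)⟩, ⟨ψ, [i], some B.length⟩])
      (extw w B.length x y) := by
  have e1 : extw w B.length x y B.length = x := by simp [extw]
  have e2 : extw w B.length x y (B.length + 1) = y := by simp [extw]
  refine h.extend _ _ (fun i hi => by simp [extw, hi]) ?_
  intro l n hl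
  rcases l with _ | _ | l
  · simp only [List.getElem?_cons_zero, Option.some.injEq] at hl
    subst hl
    simp only [add_zero]
    rw [e1]
    refine ⟨h1, by simp, fun k hk => ?_⟩
    rw [List.mem_singleton.mp hk]
    refine ⟨hi, by simp, ?_⟩
    intro p hp
    simp only [Option.some.injEq] at hp
    subst hp
    refine ⟨⟨ψ, [i], some B.length⟩, ?_, by simp, by rw [e2]; exact h3⟩
    rw [List.getElem?_append_right (by omega)]
    simp
  · simp only [zero_add, List.getElem?_cons_succ, List.getElem?_cons_zero,
      Option.some.injEq] at hl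
    subst hl
    simp only [zero_add]
    rw [e2]
    refine ⟨h2, by simp, fun k hk => ?_⟩
    rw [List.mem_singleton.mp hk]
    refine ⟨hi, by simp, ?_⟩
    intro p hp
    simp only [Option.some.injEq] at hp
    subst hp
    refine ⟨⟨φ, [i], some (B.length + 1)⟩, ?_, by simp, by rw [e1, inf_comm]; exact h3⟩
    rw [List.getElem?_append_right (by omega)]
    simp
  · simp at hl

lemma good_root (V : ℕ → W → Prop) (φ : Form) (x : W) (h : sat V φ x) :
    Good V [⟨φ, [], none⟩] (fun _ => x) := by
  intro i n hi
  rcases i with _ | i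
  · simp only [List.getElem?_cons_zero, Option.some.injEq] at hi
    subst hi
    exact ⟨h, fun h => absurd h (lt_irrefl 0), by simp⟩
  · simp at hi

/-- **Soundness.** -/
theorem sound {V : ℕ → W → Prop} (hV : ∀ p x y, x ≤ y → V p x → V p y) (rec : Prop)
    (B : List Node) (h : Closes Parity rec B) (w : ℕ → W) (hg : Good V B w) (h0 : w 0 = ⊥) :
    False := by
  induction h generalizing w with
  | crash B i j n m hi hj hform hK =>
    have h1 := (hg i n hi).1
    have h2 := (hg j m hj).1
    rw [hform] at h2
    have h3 := hg.parity i j (List.getElem?_eq_some_iff.mp hi).1 hK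

    rw [h0, le_bot_iff] at h3
    exact h2 (sat_mono hV _ _ _ (le_compl_iff_disjoint_right.mpr (disjoint_iff.mpr h3)) h1)
  | and B i n φ ψ hi hform _ ih =>
    have hiB := (List.getElem?_eq_some_iff.mp hi).1
    have h1 := (hg i n hi).1
    rw [hform] at h1
    refine ih _ (hg.extend_two φ ψ i hiB h1.1 h1.2) ?_
    have : 0 < B.length := by omega
    simp [extw, this, h0]
  | nor B i n φ ψ hi hform _ ih =>
    have hiB := (List.getElem?_eq_some_iff.mp hi).1
    have h1 := (hg i n hi).1
    rw [hform] at h1
    refine ih _ (hg.extend_two (.neg φ) (.neg ψ) i hiB (fun h => h1 (Or.inl h))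
      (fun h => h1 (Or.inr h))) ?_
    have : 0 < B.length := by omega
    simp [extw, this, h0]
  | dneg B i n φ hi hform _ ih =>
    have hiB := (List.getElem?_eq_some_iff.mp hi).1
    have h1 := (hg i n hi).1
    rw [hform] at h1
    have h2 : sat V φ (w i) := by
      have := not_not.mp h1
      rwa [compl_compl] at this
    refine ih _ (hg.extend_one φ [i] (w i) h2 (by simp) (by simpa using hiB)) ?_
    have : 0 < B.length := by omega
    simp [extw, this, h0]
  | nand B i n φ ψ hi hform _ _ ih1 ih2 =>
    have hiB := (List.getElem?_eq_some_iff.mp hi).1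
    have h1 := (hg i n hi).1
    rw [hform] at h1
    have : 0 < B.length := by omega
    rcases not_and_or.mp h1 with h2 | h2
    · exact ih1 _ (hg.extend_one (.neg φ) [i] (w i) h2 (by simp) (by simpa using hiB))
        (by simp [extw, this, h0])
    · exact ih2 _ (hg.extend_one (.neg ψ) [i] (w i) h2 (by simp) (by simpa using hiB))
        (by simp [extw, this, h0])
  | or B i n φ ψ hi hform _ _ ih1 ih2 =>
    have hiB := (List.getElem?_eq_some_iff.mp hi).1
    have h1 := (hg i n hi).1
    rw [hform] at h1
    have : 0 < B.length := by omega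
    rcases h1 with h2 | h2
    · exact ih1 _ (hg.extend_one φ [i] (w i) h2 (by simp) (by simpa using hiB))
        (by simp [extw, this, h0])
    · exact ih2 _ (hg.extend_one ψ [i] (w i) h2 (by simp) (by simpa using hiB))
        (by simp [extw, this, h0])
  | mp B i j n m ψ hi hj hform _ ih =>
    have hiB := (List.getElem?_eq_some_iff.mp hi).1
    have hjB := (List.getElem?_eq_some_iff.mp hj).1
    have h1 := (hg i n hi).1
    have h2 := (hg j m hj).1
    rw [hform] at h2
    have h3 := h2 _ h1
    refine ih _ (hg.extend_one ψ [i, j] (w j ⊓ w i) h3 (by simp) ?_) ?_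
    · intro k hk
      simp only [List.mem_cons, List.not_mem_nil, or_false] at hk
      rcases hk with rfl | rfl
      · exact ⟨hiB, inf_le_right⟩
      · exact ⟨hjB, inf_le_left⟩
    · have : 0 < B.length := by omega
      simp [extw, this, h0]
  | counter B i n φ ψ hi hform _ ih =>
    have hiB := (List.getElem?_eq_some_iff.mp hi).1
    have h1 := (hg i n hi).1
    rw [hform] at h1
    have h2 : ∃ y, sat V φ y ∧ ¬ sat V ψ ((w i)ᶜ ⊓ y) := by
      by_contra hcon
      push Not at hcon
      exact h1 hcon
    obtain ⟨y, h3, h4⟩ := h2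
    have h5 : sat V (.neg ψ) (w i ⊔ yᶜ) := by
      intro h6
      apply h4
      rwa [compl_sup, compl_compl] at h6
    refine ih _ (hg.extend_counter φ (.neg ψ) i hiB (w i ⊔ y) (w i ⊔ yᶜ)
      (sat_mono hV φ _ _ le_sup_right h3) h5 ?_) ?_
    · rw [← sup_inf_left, inf_compl_eq_bot, sup_bot_eq]
    · have : 0 < B.length := by omega
      simp [extw, this, h0]
  | recursive B i n θ _ hi _ _ ih1 ih2 =>
    have hiB := (List.getElem?_eq_some_iff.mp hi).1
    have h1 := (hg i n hi).1
    have h2 : sat V (.imp n.form θ) (⊤ : W) := by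
      by_contra hcon
      refine ih1 (fun _ => ⊥) (good_root V _ ⊥ ?_) rfl
      intro h
      rw [compl_bot] at h
      exact hcon h
    have h3 := h2 _ h1
    rw [top_inf_eq] at h3
    refine ih2 _ (hg.extend_one θ [i] (w i) h3 (by simp) (by simpa using hiB)) ?_
    have : 0 < B.length := by omega
    simp [extw, this, h0]

/-- acceptable formulae are true at the top element of every model -/
theorem sound_top {V : ℕ → W → Prop} (hV : ∀ p x y, x ≤ y → V p x → V p y) (φ : Form)
    (h : Acceptable φ) : sat V φ (⊤ : W) := by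
  by_contra hcon
  refine sound hV True _ h (fun _ => ⊥) (good_root V _ ⊥ ?_) rfl
  intro h1
  rw [compl_bot] at h1
  exact hcon h1

/-- if `φ → ψ` is acceptable, then `φ` and `ψ` have a sentence letter in common -/
theorem letter_sharing (φ ψ : Form) (h : Acceptable (.imp φ ψ)) :
    (φ.letters ∩ ψ.letters).Nonempty := by
  classical
  by_contra hcon
  rw [Set.not_nonempty_iff_eq_empty] at hcon
  -- the letters of `φ` are true where the first component is `true`, the other letters where the
  -- second component is `true`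
  let V : ℕ → Bool × Bool → Prop := fun p x => if p ∈ φ.letters then x.1 = true else x.2 = true
  have hV : ∀ p x y, x ≤ y → V p x → V p y := by
    intro p x y hxy h
    simp only [V] at h ⊢
    split_ifs at h ⊢
    · exact hxy.1 h
    · exact hxy.2 h
  have h1 : ∀ χ : Form, χ.letters ⊆ φ.letters → ∀ x, sat V χ x ↔ x.1 = true := by
    intro χ
    induction χ with
    | letter p =>
      intro hp x
      have : p ∈ φ.letters := hp rfl
      simp [sat, V, this]
    | neg χ ih =>
      intro hp x
      simp only [sat, ih hp]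
      obtain ⟨a, b⟩ := x
      cases a <;> simp
    | and χ χ' ih1 ih2 =>
      intro hp x
      simp only [sat, ih1 (fun a ha => hp (Or.inl ha)), ih2 (fun a ha => hp (Or.inr ha)), and_self]
    | or χ χ' ih1 ih2 =>
      intro hp x
      simp only [sat, ih1 (fun a ha => hp (Or.inl ha)), ih2 (fun a ha => hp (Or.inr ha)), or_self]
    | imp χ χ' ih1 ih2 =>
      intro hp x
      simp only [sat, ih1 (fun a ha => hp (Or.inl ha)), ih2 (fun a ha => hp (Or.inr ha))]
      constructor
      · intro h
        have := h ⊤ rfl
        simpa using this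
      · intro h y hy
        obtain ⟨a, b⟩ := x
        obtain ⟨c, d⟩ := y
        simp only at h hy
        simp [h, hy]
  have h2 : ∀ χ : Form, χ.letters ∩ φ.letters = ∅ → ∀ x, sat V χ x ↔ x.2 = true := by
    intro χ
    induction χ with
    | letter p =>
      intro hp x
      have : p ∉ φ.letters := fun h => by
        have h' : p ∈ (Form.letter p).letters ∩ φ.letters := ⟨rfl, h⟩
        rw [hp] at h'
        exact h'
      simp [sat, V, this]
    | neg χ ih =>
      intro hp x
      simp only [sat, ih hp]
      obtain ⟨a, b⟩ := x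
      cases b <;> simp
    | and χ χ' ih1 ih2 =>
      intro hp x
      simp only [Form.letters, Set.union_inter_distrib_right, Set.union_empty_iff] at hp
      simp only [sat, ih1 hp.1, ih2 hp.2, and_self]
    | or χ χ' ih1 ih2 =>
      intro hp x
      simp only [Form.letters, Set.union_inter_distrib_right, Set.union_empty_iff] at hp
      simp only [sat, ih1 hp.1, ih2 hp.2, or_self]
    | imp χ χ' ih1 ih2 =>
      intro hp x
      simp only [Form.letters, Set.union_inter_distrib_right, Set.union_empty_iff] at hp
      simp only [sat, ih1 hp.1, ih2 hp.2]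
      constructor
      · intro h
        have := h ⊤ rfl
        simpa using this
      · intro h y hy
        obtain ⟨a, b⟩ := x
        obtain ⟨c, d⟩ := y
        simp only at h hy
        simp [h, hy]
  have h3 := sound_top hV _ h (true, false) ((h1 φ subset_rfl _).mpr rfl)
  rw [h2 ψ (by rw [Set.inter_comm]; exact hcon)] at h3
  simp at h3

end Pool.Agent.Q312.Mak
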