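import Pool.Agent.Q312.Mak.Check

/-!
A directly acceptable formula without a tree satisfying strengthened parity.
-/

namespace Pool.Agent.Q312.Mak.Strong

open Form

abbrev X : Form := letter 0
abbrev Y : Form := letter 1
abbrev Bb : Form := letter 2
abbrev Z : Form := letter 3
abbrev Wf : Form := letter 4
abbrev Dd : Form := letter 5

abbrev P1 : Form := neg (imp (or X Y) Bb)
abbrev P2 : Form := imp Y Bb
abbrev P3 : Form := neg (imp (or Z Wf) Dd)
abbrev P4 : Form := imp Wf Dd
abbrev P5 : Form := imp X (imp Z (imp (neg Bb) Dd))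
abbrev R3 : Form := and P4 P5
abbrev R2 : Form := and P3 R3
abbrev R1 : Form := and P2 R2
abbrev R0 : Form := and P1 R1

/-- the formula -/
abbrev Phi : Form := neg R0

theorem da_phi : DA Phi := by
  unfold DA
  refine .dneg _ 0 _ R0 rfl rfl ?_
  refine .and _ 1 _ P1 R1 rfl rfl ?_
  refine .and _ 3 _ P2 R2 rfl rfl ?_
  refine .and _ 5 _ P3 R3 rfl rfl ?_
  refine .and _ 7 _ P4 P5 rfl rfl ?_
  -- 2: P1, 4: P2, 6: P3, 8: P4, 9: P5
  refine .counter _ 2 _ (or X Y) Bb rfl rfl ?_
  -- 10: X ∨ Y, 11: ¬B
  refine .or _ 10 _ X Y rfl rfl ?_ ?_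
  · -- 12: X
    refine .counter _ 6 _ (or Z Wf) Dd rfl rfl ?_
    -- 13: Z ∨ W, 14: ¬D
    refine .or _ 13 _ Z Wf rfl rfl ?_ ?_
    · -- 15: Z
      refine .mp _ 12 9 _ _ (imp Z (imp (neg Bb) Dd)) rfl rfl rfl ?_
      -- 16
      refine .mp _ 15 16 _ _ (imp (neg Bb) Dd) rfl rfl rfl ?_
      -- 17
      refine .mp _ 11 17 _ _ Dd rfl rfl rfl ?_
      -- 18
      exact .crash _ 18 14 _ _ rfl rfl rfl
        (parity_of _ _ _ (by decide) (by decide) _ rfl (by decide) (by decide))
    · -- 15: W
      refine .mp _ 15 8 _ _ Dd rfl rfl rfl ?_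
      exact .crash _ 16 14 _ _ rfl rfl rfl
        (parity_of _ _ _ (by decide) (by decide) _ rfl (by decide) (by decide))
  · -- 12: Y
    refine .mp _ 12 4 _ _ Bb rfl rfl rfl ?_
    exact .crash _ 13 11 _ _ rfl rfl rfl
      (parity_of _ _ _ (by decide) (by decide) _ rfl (by decide) (by decide))

/-! ### Trees with strengthened parity -/

/-- A strategy: the allowed formulae, with a flag. The flag `true` means that no special critical
node is in the trace. -/
structure Strategy where
  Al : Form → Bool → Prop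
  and : ∀ φ ψ t, Al (.and φ ψ) t → Al φ t ∧ Al ψ t
  nor : ∀ φ ψ t, Al (.neg (.or φ ψ)) t → Al (.neg φ) t ∧ Al (.neg ψ) t
  dneg : ∀ φ t, Al (.neg (.neg φ)) t → Al φ t
  nand : ∀ φ ψ t, Al (.neg (.and φ ψ)) t → Al (.neg φ) t ∨ Al (.neg ψ) t
  or : ∀ φ ψ t, Al (.or φ ψ) t → Al φ t ∨ Al ψ t
  mp : ∀ φ ψ s t, Al φ s → Al (.imp φ ψ) t → Al ψ (s && t)
  counter : ∀ φ ψ t, Al (.neg (.imp φ ψ)) t → ∃ s, (s = true → t = true) ∧ Al φ s ∧ Al (.neg ψ) s
  crash : ∀ φ s t, Al φ s → Al (.neg φ) t → s = true ∧ t = true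

/-- the flags are correct -/
def Flags (Al : Form → Bool → Prop) (B : List Node) (fl : ℕ → Bool) : Prop :=
  ∀ i n, B[i]? = some n → Al n.form (fl i) ∧ ∀ j ∈ n.inputs, j < i ∧ (fl i = true → fl j = true)

/-- there is a critical node with the flag `false` -/
def Special (B : List Node) (fl : ℕ → Bool) : Prop :=
  ∃ c n p, B[c]? = some n ∧ n.partner = some p ∧ fl c = false

/-- extension of the flags -/
def extf (fl : ℕ → Bool) (n : ℕ) (t : Bool) : ℕ → Bool := fun j => if j < n then fl j else t

lemma Flags.extend {Al : Form → Bool → Prop} {B : List Node} {fl : ℕ → Bool}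
    (h : Flags Al B fl) (C : List Node) (t : Bool)
    (hC : ∀ n ∈ C, Al n.form t ∧ ∀ j ∈ n.inputs, j < B.length ∧ (t = true → fl j = true)) :
    Flags Al (B ++ C) (extf fl B.length t) := by
  intro i n hi
  by_cases hiB : i < B.length
  · rw [List.getElem?_append_left hiB] at hi
    obtain ⟨h1, h2⟩ := h i n hi
    refine ⟨by simpa [extf, hiB] using h1, fun j hj => ?_⟩
    obtain ⟨h3, h4⟩ := h2 j hj
    have hjB : j < B.length := h3.trans hiB
    exact ⟨h3, by simpa [extf, hiB, hjB] using h4⟩
  · have hiB' := not_lt.mp hiB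
    rw [List.getElem?_append_right hiB'] at hi
    obtain ⟨h1, h2⟩ := hC n (List.mem_of_getElem? hi)
    refine ⟨by simpa [extf, hiB] using h1, fun j hj => ?_⟩
    obtain ⟨h3, h4⟩ := h2 j hj
    exact ⟨by omega, by simpa [extf, hiB, h3] using h4⟩

lemma Special.extend {B : List Node} {fl : ℕ → Bool} (h : Special B fl) (C : List Node) (t : Bool) :
    Special (B ++ C) (extf fl B.length t) := by
  obtain ⟨c, n, p, h1, h2, h3⟩ := h
  have hc : c < B.length := (List.getElem?_eq_some_iff.mp h1).1
  exact ⟨c, n, p, by rw [List.getElem?_append_left hc]; exact h1, h2, by simpa [extf, hc] using h3⟩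

lemma Flags.trace {Al : Form → Bool → Prop} {B : List Node} {fl : ℕ → Bool}
    (h : Flags Al B fl) {i k : ℕ} (htr : InTrace B i k) : fl i = true → fl k = true := by
  induction htr with
  | self i => exact id
  | step i j k n hn hj _ ih => exact fun h1 => ih (((h i n hn).2 j hj).2 h1)

/-- with a strategy and a special critical node there is no tree with strengthened parity -/
lemma no_tree (G : Strategy) (B : List Node) (hcl : Closes StrongParity False B) (fl : ℕ → Bool)
    (hf : Flags G.Al B fl) (hs : Special B fl) : False := by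
  induction hcl generalizing fl with
  | crash B i j n m hi hj hform hK =>
    have h1 := (hf i n hi).1
    have h2 := (hf j m hj).1
    rw [hform] at h2
    obtain ⟨h3, h4⟩ := G.crash _ _ _ h1 h2
    obtain ⟨c, l, p, h5, h6, h7⟩ := hs
    rcases (hK c l p h5 h6).1 with h8 | h8
    · rw [hf.trace h8 h3] at h7
      exact absurd h7 (by simp)
    · rw [hf.trace h8 h4] at h7
      exact absurd h7 (by simp)
  | and B i n φ ψ hi hform _ ih =>
    have hiB := (List.getElem?_eq_some_iff.mp hi).1
    have h1 := (hf i n hi).1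
    rw [hform] at h1
    obtain ⟨h2, h3⟩ := G.and _ _ _ h1
    refine ih _ (hf.extend _ (fl i) ?_) (hs.extend _ _)
    intro n hn
    simp only [List.mem_cons, List.not_mem_nil, or_false] at hn
    rcases hn with rfl | rfl
    · exact ⟨h2, by simp [hiB]⟩
    · exact ⟨h3, by simp [hiB]⟩
  | nor B i n φ ψ hi hform _ ih =>
    have hiB := (List.getElem?_eq_some_iff.mp hi).1
    have h1 := (hf i n hi).1
    rw [hform] at h1
    obtain ⟨h2, h3⟩ := G.nor _ _ _ h1
    refine ih _ (hf.extend _ (fl i) ?_) (hs.extend _ _)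
    intro n hn
    simp only [List.mem_cons, List.not_mem_nil, or_false] at hn
    rcases hn with rfl | rfl
    · exact ⟨h2, by simp [hiB]⟩
    · exact ⟨h3, by simp [hiB]⟩
  | dneg B i n φ hi hform _ ih =>
    have hiB := (List.getElem?_eq_some_iff.mp hi).1
    have h1 := (hf i n hi).1
    rw [hform] at h1
    refine ih _ (hf.extend _ (fl i) ?_) (hs.extend _ _)
    intro n hn
    rw [List.mem_singleton.mp hn]
    exact ⟨G.dneg _ _ h1, by simp [hiB]⟩
  | nand B i n φ ψ hi hform _ _ ih1 ih2 =>
    have hiB := (List.getElem?_eq_some_iff.mp hi).1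
    have h1 := (hf i n hi).1
    rw [hform] at h1
    rcases G.nand _ _ _ h1 with h2 | h2
    · refine ih1 _ (hf.extend _ (fl i) ?_) (hs.extend _ _)
      intro n hn
      rw [List.mem_singleton.mp hn]
      exact ⟨h2, by simp [hiB]⟩
    · refine ih2 _ (hf.extend _ (fl i) ?_) (hs.extend _ _)
      intro n hn
      rw [List.mem_singleton.mp hn]
      exact ⟨h2, by simp [hiB]⟩
  | or B i n φ ψ hi hform _ _ ih1 ih2 =>
    have hiB := (List.getElem?_eq_some_iff.mp hi).1
    have h1 := (hf i n hi).1
    rw [hform] at h1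
    rcases G.or _ _ _ h1 with h2 | h2
    · refine ih1 _ (hf.extend _ (fl i) ?_) (hs.extend _ _)
      intro n hn
      rw [List.mem_singleton.mp hn]
      exact ⟨h2, by simp [hiB]⟩
    · refine ih2 _ (hf.extend _ (fl i) ?_) (hs.extend _ _)
      intro n hn
      rw [List.mem_singleton.mp hn]
      exact ⟨h2, by simp [hiB]⟩
  | mp B i j n m ψ hi hj hform _ ih =>
    have hiB := (List.getElem?_eq_some_iff.mp hi).1
    have hjB := (List.getElem?_eq_some_iff.mp hj).1
    have h1 := (hf i n hi).1
    have h2 := (hf j m hj).1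
    rw [hform] at h2
    refine ih _ (hf.extend _ (fl i && fl j) ?_) (hs.extend _ _)
    intro n hn
    rw [List.mem_singleton.mp hn]
    refine ⟨G.mp _ _ _ _ h1 h2, ?_⟩
    intro k hk
    simp only [List.mem_cons, List.not_mem_nil, or_false] at hk
    rcases hk with rfl | rfl
    · exact ⟨hiB, fun h => (Bool.and_eq_true_iff.mp h).1⟩
    · exact ⟨hjB, fun h => (Bool.and_eq_true_iff.mp h).2⟩
  | counter B i n φ ψ hi hform _ ih =>
    have hiB := (List.getElem?_eq_some_iff.mp hi).1
    have h1 := (hf i n hi).1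
    rw [hform] at h1
    obtain ⟨s, h2, h3, h4⟩ := G.counter _ _ _ h1
    refine ih _ (hf.extend _ s ?_) (hs.extend _ _)
    intro n hn
    simp only [List.mem_cons, List.not_mem_nil, or_false] at hn
    rcases hn with rfl | rfl
    · exact ⟨h3, by simpa [hiB] using h2⟩
    · exact ⟨h4, by simpa [hiB] using h2⟩
  | recursive B i n θ hrec => exact hrec

/-- the formulae obtained from the root without critical nodes -/
inductive Base : Form → Prop
  | r : Base (neg Phi)
  | r0 : Base R0
  | r1 : Base R1
  | r2 : Base R2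
  | r3 : Base R3
  | p1 : Base P1
  | p2 : Base P2
  | p3 : Base P3
  | p4 : Base P4
  | p5 : Base P5

/-- first strategy: `X ∨ Y` becomes `X`, `Z ∨ W` becomes `W` -/
inductive Al1 : Form → Bool → Prop
  | r : Al1 (neg Phi) true
  | r0 : Al1 R0 true
  | r1 : Al1 R1 true
  | r2 : Al1 R2 true
  | r3 : Al1 R3 true
  | p1 : Al1 P1 true
  | p2 : Al1 P2 true
  | p3 : Al1 P3 true
  | p4 : Al1 P4 true
  | p5 : Al1 P5 true
  | xy : Al1 (or X Y) false
  | nb : Al1 (neg Bb) false
  | x : Al1 X false
  | zbd : Al1 (imp Z (imp (neg Bb) Dd)) false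
  | zw : Al1 (or Z Wf) true
  | nd : Al1 (neg Dd) true
  | w : Al1 Wf true
  | d : Al1 Dd true

/-- second strategy: `X ∨ Y` becomes `Y`, `Z ∨ W` becomes `Z` -/
inductive Al2 : Form → Bool → Prop
  | r : Al2 (neg Phi) true
  | r0 : Al2 R0 true
  | r1 : Al2 R1 true
  | r2 : Al2 R2 true
  | r3 : Al2 R3 true
  | p1 : Al2 P1 true
  | p2 : Al2 P2 true
  | p3 : Al2 P3 true
  | p4 : Al2 P4 true
  | p5 : Al2 P5 true
  | xy : Al2 (or X Y) true
  | nb : Al2 (neg Bb) true
  | y : Al2 Y true
  | b : Al2 Bb true
  | zw : Al2 (or Z Wf) false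
  | nd : Al2 (neg Dd) false
  | z : Al2 Z false

def str1 : Strategy where
  Al := Al1
  and φ ψ t h := by cases h <;> exact ⟨by constructor, by constructor⟩
  nor φ ψ t h := by cases h
  dneg φ t h := by cases h; constructor
  nand φ ψ t h := by cases h
  or φ ψ t h := by
    cases h
    · exact Or.inl .x
    · exact Or.inr .w
  mp φ ψ s t h1 h2 := by
    cases h2 <;> cases h1
    · exact .d
    · exact .zbd
  counter φ ψ t h := by
    cases h
    · exact ⟨false, by simp, .xy, .nb⟩
    · exact ⟨true, by simp, .zw, .nd⟩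
  crash φ s t h1 h2 := by
    cases h2 <;> cases h1 <;> exact ⟨rfl, rfl⟩

def str2 : Strategy where
  Al := Al2
  and φ ψ t h := by cases h <;> exact ⟨by constructor, by constructor⟩
  nor φ ψ t h := by cases h
  dneg φ t h := by cases h; constructor
  nand φ ψ t h := by cases h
  or φ ψ t h := by
    cases h
    · exact Or.inr .y
    · exact Or.inl .z
  mp φ ψ s t h1 h2 := by
    cases h2 <;> cases h1
    exact .b
  counter φ ψ t h := by
    cases h
    · exact ⟨true, by simp, .xy, .nb⟩
    · exact ⟨false, by simp, .zw, .nd⟩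
  crash φ s t h1 h2 := by
    cases h2 <;> cases h1 <;> exact ⟨rfl, rfl⟩

/-- only nodes obtained from the root without critical nodes -/
def AllBase (B : List Node) : Prop :=
  ∀ (i : ℕ) (n : Node), B[i]? = some n → Base n.form ∧ ∀ j ∈ n.inputs, j < i

lemma AllBase.extend {B : List Node} (hb : AllBase B) (C : List Node)
    (hC : ∀ n ∈ C, Base n.form ∧ ∀ j ∈ n.inputs, j < B.length) : AllBase (B ++ C) := by
  intro i n hi
  by_cases hiB : i < B.length
  · rw [List.getElem?_append_left hiB] at hi
    exact hb i n hi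
  · have hiB' := not_lt.mp hiB
    rw [List.getElem?_append_right hiB'] at hi
    obtain ⟨h1, h2⟩ := hC n (List.mem_of_getElem? hi)
    exact ⟨h1, fun j hj => (h2 j hj).trans_le hiB'⟩

lemma AllBase.flags {B : List Node} (hb : AllBase B) (G : Strategy)
    (hG : ∀ φ, Base φ → G.Al φ true) : Flags G.Al B (fun _ => true) := by
  intro i n hi
  exact ⟨hG _ (hb i n hi).1, fun j hj => ⟨(hb i n hi).2 j hj, fun _ => rfl⟩⟩

/-- before the first critical nodes -/
lemma no_tree_base (B : List Node) (hcl : Closes StrongParity False B) (hb : AllBase B) :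
    False := by
  induction hcl with
  | crash B i j n m hi hj hform hK =>
    have h1 := (hb i n hi).1
    have h2 := (hb j m hj).1
    rw [hform] at h2
    generalize n.form = φ at h1 h2
    cases h2 <;> cases h1
  | and B i n φ ψ hi hform _ ih =>
    have hiB := (List.getElem?_eq_some_iff.mp hi).1
    have h1 := (hb i n hi).1
    rw [hform] at h1
    have h2 : Base φ ∧ Base ψ := by
      cases h1 <;> constructor <;> constructor
    refine ih (hb.extend _ ?_)
    intro n hn
    simp only [List.mem_cons, List.not_mem_nil, or_false] at hn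
    rcases hn with rfl | rfl
    · exact ⟨h2.1, by simp [hiB]⟩
    · exact ⟨h2.2, by simp [hiB]⟩
  | nor B i n φ ψ hi hform _ ih =>
    have h1 := (hb i n hi).1
    rw [hform] at h1
    cases h1
  | dneg B i n φ hi hform _ ih =>
    have hiB := (List.getElem?_eq_some_iff.mp hi).1
    have h1 := (hb i n hi).1
    rw [hform] at h1
    have h2 : Base φ := by cases h1; constructor
    refine ih (hb.extend _ ?_)
    intro n hn
    rw [List.mem_singleton.mp hn]
    exact ⟨h2, by simp [hiB]⟩
  | nand B i n φ ψ hi hform _ _ ih1 ih2 =>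
    have h1 := (hb i n hi).1
    rw [hform] at h1
    cases h1
  | or B i n φ ψ hi hform _ _ ih1 ih2 =>
    have h1 := (hb i n hi).1
    rw [hform] at h1
    cases h1
  | mp B i j n m ψ hi hj hform _ ih =>
    have h1 := (hb i n hi).1
    have h2 := (hb j m hj).1
    rw [hform] at h2
    generalize n.form = φ at h1 h2
    cases h2 <;> cases h1
  | counter B i n φ ψ hi hform hcl ih =>
    have hiB := (List.getElem?_eq_some_iff.mp hi).1
    have h1 := (hb i n hi).1
    rw [hform] at h1
    have key : ∀ G : Strategy, (∀ φ, Base φ → G.Al φ true) → G.Al φ false →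
        G.Al (.neg ψ) false → False := by
      intro G hG h2 h3
      refine no_tree G _ hcl _ ((hb.flags G hG).extend _ false ?_) ?_
      · intro n hn
        simp only [List.mem_cons, List.not_mem_nil, or_false] at hn
        rcases hn with rfl | rfl
        · exact ⟨h2, by simp [hiB]⟩
        · exact ⟨h3, by simp [hiB]⟩
      · refine ⟨B.length, ⟨φ, [i], some (B.length + 1)⟩, B.length + 1, ?_, rfl, ?_⟩
        · rw [List.getElem?_append_right le_rfl]
          simp
        · simp [extf]
    cases h1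
    · exact key str1 (fun φ h => by cases h <;> constructor) .xy .nb
    · exact key str2 (fun φ h => by cases h <;> constructor) .zw .nd
  | recursive B i n θ hrec => exact hrec

theorem not_das_phi : ¬ DAs Phi := by
  intro h
  refine no_tree_base _ h ?_
  intro i n hi
  rcases i with _ | i
  · simp only [List.getElem?_cons_zero, Option.some.injEq] at hi
    subst hi
    exact ⟨.r, by simp⟩
  · simp at hi

end Pool.Agent.Q312.Mak.Strong
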